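import Pool.Agent.Helper1x.EM.Trav

/-!
# Descent and traversal for permutation gates and matching gates
-/

set_option autoImplicit false

namespace Pool.Agent.Helper1x.EH

open Finset Pool.Agent.Helper1x.EB
open Pool.Agent.Helper1x.EM (Rel)

section

variable {X H : Type*} [CommGroup H]

/-- the parts `d` of a monomial at a permutation gate -/
def PermParts {ι : Type} (W : (X →₀ ℕ) → H) (b μ : ι → H) (d : ι → X →₀ ℕ) : Prop :=
  ∃ ψ : Equiv.Perm ι, ∀ j, b (ψ j) * W (d j) = μ j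

/-- the parts `d` of a monomial at a matching gate; the part of an edge is distributed to its ends -/
def MatchParts {ι : Type} (W : (X →₀ ℕ) → H) (b : ι → H) (d : ι → X →₀ ℕ) : Prop :=
  ∃ τ : ι → ι, (∀ v, τ (τ v) = v) ∧ (∀ v, τ v ≠ v) ∧ (∀ v, d v = 0 ∨ d (τ v) = 0) ∧
    ∀ v, W (d v) * W (d (τ v)) = b v * b (τ v)

/-- The descent: a large monomial in a gate has a cut in the window, or only small parts at an earlier gate. -/
theorem descent {W : (X →₀ ℕ) → H} {Good : (X →₀ ℕ) → Prop} (hmono : ∀ u v, u ≤ v → Good v → Good u)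
    {N : ℕ} {G : ℕ} {m : ℕ → ℕ} {l : ℕ → H} {a : ℕ} (ha : 2 ≤ a) (han : 3 * a ≤ N)
    {Q : ℕ → (X →₀ ℕ) → Prop} (hlab : ∀ k < G, ∀ u, Q k u → W u = l k) {Data : ∀ k, (Fin (m k) → X →₀ ℕ) → Prop}
    (hstep : ∀ k < G, ∀ u, Q k u → (∃ u1 u2, u1 + u2 = u ∧ Part Q k u1 ∧ Part Q k u2) ∨
      (∃ d : Fin (m k) → X →₀ ℕ, ∑ j, d j = u ∧ (∀ j, Part Q k (d j)) ∧ Data k d)) :
    ∀ k < G, ∀ u, Q k u → Good u → N - a < sz u →
      (∃ u', Good u' ∧ a ≤ sz u' ∧ sz u' ≤ N - a ∧ ∃ j < G, W u' = l j) ∨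
      ∃ k < G, ∃ d, Good (∑ j, d j) ∧ N - a < sz (∑ j, d j) ∧ (∀ j, sz (d j) < a) ∧ Data k d := by
  classical
  intro k
  induction k using Nat.strong_induction_on with
  | _ k ih =>
    intro hk u hQ hG hu
    have hpart : ∀ u1, Part Q k u1 → Good u1 → a ≤ sz u1 →
        (∃ u', Good u' ∧ a ≤ sz u' ∧ sz u' ≤ N - a ∧ ∃ j < G, W u' = l j) ∨
        ∃ k < G, ∃ d, Good (∑ j, d j) ∧ N - a < sz (∑ j, d j) ∧ (∀ j, sz (d j) < a) ∧ Data k d := by
      intro u1 hu1 hG1 ha1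
      rcases hu1 with h3 | ⟨j, hj, hQj⟩
      · omega
      · rcases Nat.lt_or_ge (N - a) (sz u1) with h4 | h4
        · exact ih j hj (hj.trans hk) u1 hQj hG1 h4
        · exact Or.inl ⟨u1, hG1, ha1, h4, j, hj.trans hk, hlab j (hj.trans hk) u1 hQj⟩
    rcases hstep k hk u hQ with ⟨u1, u2, h3, h4, h5⟩ | ⟨d, hd, h3, h4⟩
    · have h6 := sz_add u1 u2
      rw [h3] at h6
      rcases Nat.lt_or_ge (sz u1) a with h7 | h7
      · exact hpart u2 h5 (hmono _ _ (h3 ▸ le_add_self) hG) (by omega)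
      · exact hpart u1 h4 (hmono _ _ (h3 ▸ le_self_add) hG) h7
    · by_cases hbig : ∃ v, a ≤ sz (d v)
      · obtain ⟨v, hv⟩ := hbig
        refine hpart _ (h3 v) (hmono _ _ ?_ hG) hv
        have h6 := sum_le_of_subset (Finset.subset_univ {v}) d
        rw [Finset.sum_singleton, hd] at h6
        exact h6
      · push Not at hbig
        exact Or.inr ⟨k, hk, d, hd.symm ▸ hG, hd.symm ▸ hu, hbig, h4⟩

/-- Two monomials at a permutation gate. -/
theorem traverse_perm {ι : Type} [Fintype ι] [DecidableEq ι] {W : (X →₀ ℕ) → H} (hW : Mult W) {a : ℕ} {b μ : ι → H}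
    {d d' : ι → X →₀ ℕ} (hd : ∀ j, sz (d j) < a) (hx : PermParts W b μ d) (hy : PermParts W b μ d') {w0 : ℕ}
    (hw0 : 0 < w0) (hw : w0 ≤ sz (∑ j, d j)) :
    ∃ v v' : ι, ∃ S : Finset ι, w0 ≤ sz (∑ z ∈ S, d z) ∧ sz (∑ z ∈ S, d z) < w0 + a ∧
      b v * W (∑ z ∈ S, d' z) = b v' * W (∑ z ∈ S, d z) := by
  classical
  obtain ⟨ψ, hψ⟩ := hx
  obtain ⟨ψ', hψ'⟩ := hy
  have hZ : (univ : Finset ι).Nonempty := by
    rw [Finset.nonempty_iff_ne_empty]
    intro h0
    rw [h0, Finset.sum_empty, sz_zero] at hw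
    omega
  obtain ⟨v0, hv0⟩ := hZ
  set P := (univ : Finset ι).powerset.filter fun S => Rel univ ψ ψ' S ∧ sz (∑ z ∈ S, d z) < w0 with hP
  have hPn : P.Nonempty := by
    refine ⟨∅, mem_filter.2 ⟨Finset.empty_mem_powerset _, ⟨v0, hv0, v0, hv0, rfl⟩, ?_⟩⟩
    rw [Finset.sum_empty, sz_zero]
    exact hw0
  obtain ⟨S, hS, hmax⟩ := Finset.exists_max_image P Finset.card hPn
  obtain ⟨_, hS2, hS3⟩ := mem_filter.1 hS
  have hne : S ≠ univ := by
    rintro rfl
    omega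
  obtain ⟨z, hz, hzS, hrel⟩ := hS2.extend (fun z _ => mem_univ _) (fun z _ z' _ h => ψ.injective h)
    (fun z _ => mem_univ _) (fun z _ z' _ h => ψ'.injective h) (Finset.subset_univ S) hne
  obtain ⟨v, hv, v', hv', h1⟩ := hrel
  have h2 := congrArg (fun M => (Multiset.map b M).prod) h1
  simp only [Multiset.map_cons, Multiset.prod_cons, Multiset.map_map] at h2
  set S' := insert z S with hS'
  have h3 : (Multiset.map (b ∘ ψ) S'.val).prod = ∏ z ∈ S', b (ψ z) := rfl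
  have h4 : (Multiset.map (b ∘ ψ') S'.val).prod = ∏ z ∈ S', b (ψ' z) := rfl
  rw [h3, h4] at h2
  have h5 : (∏ z ∈ S', b (ψ z)) * ∏ z ∈ S', W (d z) = (∏ z ∈ S', b (ψ' z)) * ∏ z ∈ S', W (d' z) := by
    rw [← Finset.prod_mul_distrib, ← Finset.prod_mul_distrib]
    exact Finset.prod_congr rfl fun z _ => (hψ z).trans (hψ' z).symm
  refine ⟨v, v', S', ?_, ?_, ?_⟩
  · by_contra h6
    push Not at h6
    have h7 := hmax _ (mem_filter.2 ⟨Finset.mem_powerset.2 (Finset.subset_univ S'), ⟨v, hv, v', hv', h1⟩, h6⟩)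
    rw [hS', Finset.card_insert_of_notMem hzS] at h7
    omega
  · rw [hS', Finset.sum_insert hzS]
    have h6 := sz_add (d z) (∑ z ∈ S, d z)
    have h7 := hd z
    omega
  · rw [hW.sum, hW.sum]
    have h6 : (∏ z ∈ S', b (ψ' z)) * (b v * ∏ z ∈ S', W (d' z)) =
        (∏ z ∈ S', b (ψ' z)) * (b v' * ∏ z ∈ S', W (d z)) := by
      calc (∏ z ∈ S', b (ψ' z)) * (b v * ∏ z ∈ S', W (d' z)) =
            b v * ((∏ z ∈ S', b (ψ' z)) * ∏ z ∈ S', W (d' z)) := by rw [mul_left_comm]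
        _ = b v * ((∏ z ∈ S', b (ψ z)) * ∏ z ∈ S', W (d z)) := by rw [h5]
        _ = (b v * ∏ z ∈ S', b (ψ z)) * ∏ z ∈ S', W (d z) := by rw [mul_assoc]
        _ = (b v' * ∏ z ∈ S', b (ψ' z)) * ∏ z ∈ S', W (d z) := by rw [h2]
        _ = (∏ z ∈ S', b (ψ' z)) * (b v' * ∏ z ∈ S', W (d z)) := by rw [mul_comm (b v'), mul_assoc]
    exact mul_left_cancel h6

/-- the weight of the parts in an invariant set of labels -/
theorem weight_inv {ι : Type} [DecidableEq ι] {W : (X →₀ ℕ) → H} (hW : Mult W) {b : ι → H} {d : ι → X →₀ ℕ}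
    {τ : ι → ι} (h1 : ∀ v, τ (τ v) = v) (h2 : ∀ v, τ v ≠ v) (h3 : ∀ v, W (d v) * W (d (τ v)) = b v * b (τ v))
    {A : Finset ι} (hA : ∀ v ∈ A, τ v ∈ A) : W (∑ v ∈ A, d v) = ∏ v ∈ A, b v := by
  rw [hW.sum]
  have h4 : ∏ v ∈ A, (W (d v) * (b v)⁻¹) = 1 := by
    refine Finset.prod_involution (fun v _ => τ v) (fun v _ => ?_) (fun v _ _ => h2 v) (fun v hv => hA v hv)
      (fun v _ => h1 v)
    rw [mul_mul_mul_comm, h3, ← mul_inv, mul_inv_cancel]
  rw [Finset.prod_mul_distrib, Finset.prod_inv_distrib, mul_inv_eq_one] at h4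
  exact h4

/-- two invariant sets of labels of two matchings which differ by at most two labels -/
def MRel {ι : Type} [DecidableEq ι] (τ τ' : ι → ι) (A B : Finset ι) : Prop :=
  (∀ v ∈ A, τ v ∈ A) ∧ (∀ v ∈ B, τ' v ∈ B) ∧ B ⊆ A ∧ (A = B ∨ ∃ v ∉ B, ∃ w ∉ B, v ≠ w ∧ A = insert v (insert w B))

/-- Add one edge of the first matching to the first set. -/
theorem MRel.extend {ι : Type} [Fintype ι] [DecidableEq ι] {τ τ' : ι → ι} (h1 : ∀ v, τ (τ v) = v) (h2 : ∀ v, τ v ≠ v)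
    (h1' : ∀ v, τ' (τ' v) = v) (h2' : ∀ v, τ' v ≠ v) {A B : Finset ι} (h : MRel τ τ' A B) (hne : A ≠ univ) :
    ∃ z, z ∉ A ∧ τ z ∉ A ∧ ∃ B', MRel τ τ' (insert z (insert (τ z) A)) B' := by
  obtain ⟨hA, hB, hBA, h3⟩ := h
  have hnot : ∀ z, z ∉ A → τ z ∉ A := by
    intro z hz h4
    have h5 := hA _ h4
    rw [h1] at h5
    exact hz h5
  have hinv : ∀ z, z ∉ A → ∀ v ∈ insert z (insert (τ z) A), τ v ∈ insert z (insert (τ z) A) := by
    intro z hz v hv
    rcases mem_insert.1 hv with rfl | hv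
    · exact mem_insert_of_mem (mem_insert_self _ _)
    rcases mem_insert.1 hv with rfl | hv
    · rw [h1]
      exact mem_insert_self _ _
    · exact mem_insert_of_mem (mem_insert_of_mem (hA v hv))
  -- the case of equal sets
  have hclosed : ∀ B, (∀ v ∈ B, τ' v ∈ B) → A = B → ∃ z, z ∉ A ∧ τ z ∉ A ∧
      ∃ B', MRel τ τ' (insert z (insert (τ z) A)) B' := by
    intro B hB hAB
    obtain ⟨z, hz⟩ : ∃ z, z ∉ A := by
      by_contra h4
      push Not at h4
      exact hne (Finset.eq_univ_iff_forall.2 h4)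
    refine ⟨z, hz, hnot z hz, B, hinv z hz, hB, ?_, Or.inr ⟨z, hAB ▸ hz, τ z, hAB ▸ hnot z hz, (h2 z).symm, ?_⟩⟩
    · rw [hAB]
      exact (Finset.subset_insert _ _).trans (Finset.subset_insert _ _)
    · rw [hAB]
  rcases h3 with h3 | ⟨v, hv, w, hw, hvw, h3⟩
  · exact hclosed B hB h3
  · -- add the edge of the second matching at `v`
    have hvB : τ' v ∉ B := by
      intro h4
      have h5 := hB _ h4
      rw [h1'] at h5
      exact hv h5
    have hB1 : ∀ x ∈ insert v (insert (τ' v) B), τ' x ∈ insert v (insert (τ' v) B) := by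
      intro x hx
      rcases mem_insert.1 hx with rfl | hx
      · exact mem_insert_of_mem (mem_insert_self _ _)
      rcases mem_insert.1 hx with rfl | hx
      · rw [h1']
        exact mem_insert_self _ _
      · exact mem_insert_of_mem (mem_insert_of_mem (hB x hx))
    by_cases h4 : τ' v = w
    · exact hclosed _ hB1 (by rw [h3, h4])
    · set z := τ' v with hz
      have hzA : z ∉ A := by
        rw [h3, mem_insert, mem_insert]
        push Not
        exact ⟨h2' v, h4, hvB⟩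
      refine ⟨z, hzA, hnot z hzA, insert v (insert z B), hinv z hzA, hB1, ?_, Or.inr ⟨w, ?_, τ z, ?_, ?_, ?_⟩⟩
      · intro x hx
        rcases mem_insert.1 hx with rfl | hx
        · exact mem_insert_of_mem (mem_insert_of_mem (h3 ▸ mem_insert_self _ _))
        rcases mem_insert.1 hx with rfl | hx
        · exact mem_insert_self _ _
        · exact mem_insert_of_mem (mem_insert_of_mem (hBA hx))
      · rw [mem_insert, mem_insert]
        push Not
        exact ⟨hvw.symm, Ne.symm h4, hw⟩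
      · rw [mem_insert, mem_insert]
        push Not
        refine ⟨fun h5 => hnot z hzA ?_, h2 z, fun h5 => hnot z hzA (hBA h5)⟩
        rw [h5, h3]
        exact mem_insert_self _ _
      · intro h5
        refine hnot z hzA ?_
        rw [← h5, h3]
        exact mem_insert_of_mem (mem_insert_self _ _)
      · rw [h3]
        ext x
        simp only [mem_insert]
        tauto

open Classical in
/-- Two monomials at a matching gate. -/
theorem traverse_match {ι : Type} [Fintype ι] {W : (X →₀ ℕ) → H} (hW : Mult W) {a : ℕ} {b : ι → H}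
    {d d' : ι → X →₀ ℕ} (hd : ∀ j, sz (d j) < a) (hx : MatchParts W b d) (hy : MatchParts W b d') {w0 : ℕ}
    (hw0 : 0 < w0) (hw : w0 ≤ sz (∑ j, d j)) :
    ∃ h ∈ insert (1 : H) ((univ : Finset (ι × ι)).image fun v => b v.1 * b v.2), ∃ S S' : Finset ι,
      w0 ≤ sz (∑ z ∈ S, d z) ∧ sz (∑ z ∈ S, d z) < w0 + a ∧ h * W (∑ z ∈ S', d' z) = W (∑ z ∈ S, d z) := by
  obtain ⟨τ, h1, h2, h3, h4⟩ := hx
  obtain ⟨τ', h1', h2', h3', h4'⟩ := hy
  set P := (univ : Finset ι).powerset.filter fun A => (∃ B, MRel τ τ' A B) ∧ sz (∑ z ∈ A, d z) < w0 with hP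
  have hPn : P.Nonempty := by
    refine ⟨∅, mem_filter.2 ⟨Finset.empty_mem_powerset _, ⟨∅, fun v hv => absurd hv (Finset.notMem_empty v),
      fun v hv => absurd hv (Finset.notMem_empty v), subset_rfl, Or.inl rfl⟩, ?_⟩⟩
    rw [Finset.sum_empty, sz_zero]
    exact hw0
  obtain ⟨A, hA, hmax⟩ := Finset.exists_max_image P Finset.card hPn
  obtain ⟨_, ⟨B, hA2⟩, hA3⟩ := mem_filter.1 hA
  have hne : A ≠ univ := by
    rintro rfl
    omega
  obtain ⟨z, hzA, hτz, B', hrel⟩ := hA2.extend h1 h2 h1' h2' hne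
  set A' := insert z (insert (τ z) A) with hA'
  have hz1 : z ∉ insert (τ z) A := by
    rw [mem_insert]
    push Not
    exact ⟨(h2 z).symm, hzA⟩
  have hsum : ∑ x ∈ A', d x = (d z + d (τ z)) + ∑ x ∈ A, d x := by
    rw [hA', Finset.sum_insert hz1, Finset.sum_insert hτz, add_assoc]
  obtain ⟨hi1, hi2, _, hi4⟩ := hrel
  have hWA := weight_inv hW h1 h2 h4 hi1
  have hWB := weight_inv hW h1' h2' h4' hi2
  obtain ⟨h, hh, hrelw⟩ : ∃ h ∈ insert (1 : H) ((univ : Finset (ι × ι)).image fun v => b v.1 * b v.2),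
      h * W (∑ z ∈ B', d' z) = W (∑ z ∈ A', d z) := by
    rcases hi4 with h5 | ⟨v, hv, w, hw', hvw, h5⟩
    · exact ⟨1, mem_insert_self _ _, by rw [one_mul, hWA, hWB, h5]⟩
    · refine ⟨b v * b w, mem_insert_of_mem (mem_image.2 ⟨(v, w), mem_univ _, rfl⟩), ?_⟩
      rw [hWA, hWB, h5, Finset.prod_insert, Finset.prod_insert hw', mul_assoc]
      rw [mem_insert]
      push Not
      exact ⟨hvw, hv⟩
  refine ⟨h, hh, A', B', ?_, ?_, hrelw⟩
  · by_contra h6
    push Not at h6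
    have h7 := hmax _ (mem_filter.2 ⟨Finset.mem_powerset.2 (Finset.subset_univ A'), ⟨B', hi1, hi2, ‹_›, hi4⟩, h6⟩)
    rw [hA', Finset.card_insert_of_notMem hz1, Finset.card_insert_of_notMem hτz] at h7
    omega
  · rw [hsum]
    have h6 := sz_add (d z + d (τ z)) (∑ x ∈ A, d x)
    have h7 : sz (d z + d (τ z)) < a := by
      rcases h3 z with h8 | h8
      · rw [h8, zero_add]
        exact hd _
      · rw [h8, add_zero]
        exact hd _
    omega

end

end Pool.Agent.Helper1x.EH
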