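import Pool.Agent.Helper1x.EH.Gates
import Pool.Agent.Helper1x.EM.Def2

/-!
# Restriction of a circuit with matching gates to a block
-/

set_option autoImplicit false

namespace Pool.Agent.Helper1x.EH

open Finset MvPolynomial
open Pool.Agent.Helper1x.EC (V Earlier Quadratic DetGate MatrixFunctionGate scale cof blk sHom sHom_C scale_sHom
  sHom_earlier sHom_quad)

/-- circuits without matching gates -/
theorem lift {X : Type*} {K : Type*} [Field K] {c : X → K} {G : ℕ} {p : ℕ → MvPolynomial X K} {m : ℕ → ℕ}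
    (h : EC.Circuit c G p m) : Circuit c G p m := by
  intro k hk
  obtain ⟨h1, h2⟩ := h k hk
  refine ⟨h1, ?_⟩
  rcases h2 with h2 | h2 | h2
  · exact Or.inl h2
  · exact Or.inr (Or.inl h2)
  · exact Or.inr (Or.inr (Or.inl h2))

theorem t_BLA (K : Type) [Field K] (n e k : ℕ) (ι : Fin k ↪ Fin n) (S : Fin k → Kˣ) (T : Fin e → Fin k → Kˣ) (G : ℕ)
    (p : ℕ → MvPolynomial (V n e) K) (m : ℕ → ℕ) (hp : Circuit (blk ι S T) G p m) :
    Circuit (fun x => (cof S T x : K)) G (fun i => sHom ι (p i)) m := by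
  intro j hj
  obtain ⟨⟨r, hr⟩, h⟩ := hp j hj
  refine ⟨⟨r, ?_⟩, ?_⟩
  · rw [scale_sHom, hr, map_mul, sHom_C]
  rcases h with h | ⟨M, B, D, hM, hB, hD, hs, hd⟩ | ⟨M, b, μ, χ, hM, hs, hd⟩ | ⟨M, b, χ, hM, hs, hd⟩
  · exact Or.inl (sHom_quad ι p j h)
  · refine Or.inr (Or.inl ⟨M.map (sHom ι), B, D, fun u v => sHom_earlier ι p j (hM u v), hB, hD,
      ?_, ?_⟩)
    · have h1 : (M.map (sHom ι)).map (scale fun x => (cof S T x : K)) =
          (M.map (scale (blk ι S T))).map (sHom ι) := by
        ext1 u v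
        exact scale_sHom ι S T (M u v)
      have h2 : ∀ A : Matrix (Fin (m j)) (Fin (m j)) K,
          (A.map C : Matrix _ _ (MvPolynomial (V n e) K)).map (sHom ι) = A.map C := by
        intro A
        ext1 u v
        exact sHom_C ι (A u v)
      rw [h1, hs, Matrix.map_mul, Matrix.map_mul, h2, h2]
    · show sHom ι (p j) = _
      rw [hd]
      exact AlgHom.map_det (sHom ι) M
  · refine Or.inr (Or.inr (Or.inl ⟨M.map (sHom ι), b, μ, χ, fun u v => sHom_earlier ι p j (hM u v),
      fun u v => ?_, ?_⟩))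
    · show scale _ (sHom ι (M u v)) = _ * sHom ι (M u v)
      rw [scale_sHom, hs, map_mul, sHom_C]
    · show sHom ι (p j) = _
      rw [hd, map_sum]
      refine Finset.sum_congr rfl fun π _ => ?_
      rw [map_mul, sHom_C, map_prod]
      rfl
  · refine Or.inr (Or.inr (Or.inr ⟨M.map (sHom ι), b, χ, fun u v => sHom_earlier ι p j (hM u v),
      fun u v => ?_, ?_⟩))
    · show scale _ (sHom ι (M u v)) = _ * sHom ι (M u v)
      rw [scale_sHom, hs, map_mul, sHom_C]
    · show sHom ι (p j) = _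
      rw [hd, map_sum]
      refine Finset.sum_congr rfl fun τ _ => ?_
      rw [map_mul, sHom_C, map_prod]
      rfl

end Pool.Agent.Helper1x.EH
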