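import Mathlib

/-!
# Constraint satisfaction instances on a block of the variables
-/

set_option autoImplicit false

namespace Pool.Agent.Helper1x.EH

open Finset

section

variable {n r : ℕ} {A : Type}

/-- the restriction of an assignment to a scope -/
def rst {n : ℕ} {A : Type} (K : Finset (Fin n)) (x : Fin n → A) : Fin n → Option A :=
  fun i => if i ∈ K then some (x i) else none

/-- the restrictions of an assignment to the scopes with `k` variables -/
def rsts {n : ℕ} {A : Type} [DecidableEq A] (k : ℕ) (x : Fin n → A) : Finset (Fin n → Option A) :=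
  ((univ : Finset (Fin n)).powersetCard k).image fun K => rst K x

/-- partial assignments with scope in the block -/
def Inside {n r : ℕ} {A : Type} (ι : Fin r ↪ Fin n) (β : Fin n → Option A) : Prop :=
  ∀ i, (β i).isSome → i ∈ Set.range ι

open Classical in
/-- the partial assignment on the block -/
noncomputable def rho {n r : ℕ} {A : Type} (ι : Fin r ↪ Fin n) (β : Fin n → Option A) : Option (Fin r → Option A) :=
  if Inside ι β then some (fun i => β (ι i)) else none

open Classical in
/-- the constants for the other variables: the value `a0` outside the block -/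
noncomputable def zz {n r : ℕ} {A : Type} (F : Type) [Field F] (ι : Fin r ↪ Fin n) (a0 : A) (β : Fin n → Option A) : F :=
  if ∀ i, i ∉ Set.range ι → β i = none ∨ β i = some a0 then 1 else 0

open Classical in
/-- the instance on all variables -/
noncomputable def extS {n r : ℕ} {A : Type} [Fintype A] (ι : Fin r ↪ Fin n) (a0 : A) (Y : Finset (Fin r → Option A)) :
    Finset (Fin n → Option A) :=
  univ.filter fun β => (Inside ι β ∧ (fun i => β (ι i)) ∈ Y) ∨
    (¬ Inside ι β ∧ ∀ i, i ∉ Set.range ι → β i = none ∨ β i = some a0)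

theorem mem_extS {n r : ℕ} {A : Type} [Fintype A] {ι : Fin r ↪ Fin n} {a0 : A} {Y : Finset (Fin r → Option A)}
    {β : Fin n → Option A} : β ∈ extS ι a0 Y ↔ (Inside ι β ∧ (fun i => β (ι i)) ∈ Y) ∨
    (¬ Inside ι β ∧ ∀ i, i ∉ Set.range ι → β i = none ∨ β i = some a0) := by
  unfold extS
  simp only [mem_filter, mem_univ, true_and]

theorem rho_inj {ι : Fin r ↪ Fin n} {β β' : Fin n → Option A} {y : Fin r → Option A} (h : rho ι β = some y)
    (h' : rho ι β' = some y) : β = β' := by
  unfold rho at h h'
  by_cases h1 : Inside ι β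
  · by_cases h2 : Inside ι β'
    · rw [if_pos h1] at h
      rw [if_pos h2] at h'
      have h3 := (Option.some.inj h).trans (Option.some.inj h').symm
      funext i
      by_cases hi : i ∈ Set.range ι
      · obtain ⟨j, rfl⟩ := hi
        exact congrFun h3 j
      · have h4 : β i = none := by
          by_contra h5
          exact hi (h1 i (Option.isSome_iff_ne_none.2 h5))
        have h5 : β' i = none := by
          by_contra h6
          exact hi (h2 i (Option.isSome_iff_ne_none.2 h6))
        rw [h4, h5]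
    · rw [if_neg h2] at h'
      exact absurd h' (by simp)
  · rw [if_neg h1] at h
    exact absurd h (by simp)

open Classical in
theorem elim_ext [Fintype A] {F : Type} [Field F] (ι : Fin r ↪ Fin n) (a0 : A) (Y : Finset (Fin r → Option A))
    (β : Fin n → Option A) : (rho ι β).elim (zz F ι a0 β) (fun y => if y ∈ Y then (1 : F) else 0) =
      if β ∈ extS ι a0 Y then 1 else 0 := by
  unfold rho zz
  by_cases h1 : Inside ι β
  · rw [if_pos h1]
    show (if (fun i => β (ι i)) ∈ Y then (1 : F) else 0) = _
    by_cases h2 : (fun i => β (ι i)) ∈ Y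
    · rw [if_pos h2, if_pos (mem_extS.2 (Or.inl ⟨h1, h2⟩))]
    · rw [if_neg h2, if_neg fun h => (mem_extS.1 h).elim (fun h => h2 h.2) fun h => h.1 h1]
  · rw [if_neg h1]
    show (if ∀ i, i ∉ Set.range ι → β i = none ∨ β i = some a0 then (1 : F) else 0) = _
    by_cases h2 : ∀ i, i ∉ Set.range ι → β i = none ∨ β i = some a0
    · rw [if_pos h2, if_pos (mem_extS.2 (Or.inr ⟨h1, h2⟩))]
    · rw [if_neg h2, if_neg fun h => (mem_extS.1 h).elim (fun h => h1 h.1) fun h => h2 h.2]

theorem rst_map [DecidableEq A] (ι : Fin r ↪ Fin n) (K : Finset (Fin r)) (x : Fin n → A) :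
    (fun i => rst (K.map ι) x (ι i)) = rst K fun i => x (ι i) := by
  funext i
  unfold rst
  by_cases h : i ∈ K
  · rw [if_pos h, if_pos (Finset.mem_map' ι |>.2 h)]
  · rw [if_neg h, if_neg fun h' => h ((Finset.mem_map' ι).1 h')]

theorem inside_rst {ι : Fin r ↪ Fin n} {K : Finset (Fin n)} {x : Fin n → A} :
    Inside ι (rst K x) ↔ ∀ i ∈ K, i ∈ Set.range ι := by
  unfold Inside rst
  constructor
  · intro h i hi
    exact h i (by rw [if_pos hi]; rfl)
  · intro h i hi
    by_cases h1 : i ∈ K
    · exact h i h1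
    · rw [if_neg h1] at hi
      exact absurd hi (by simp)

variable [Fintype A] [DecidableEq A] {k : ℕ} {ι : Fin r ↪ Fin n} {a0 : A} {Y : Finset (Fin r → Option A)}
  {x : Fin n → A}

theorem sol_block (h : rsts k x ⊆ extS ι a0 Y) : rsts k (fun i => x (ι i)) ⊆ Y := by
  classical
  intro γ hγ
  obtain ⟨K, hK, rfl⟩ := mem_image.1 hγ
  have h1 : rst (K.map ι) x ∈ extS ι a0 Y := by
    refine h (mem_image_of_mem _ (Finset.mem_powersetCard.2 ⟨Finset.subset_univ _, ?_⟩))
    rw [Finset.card_map]
    exact (Finset.mem_powersetCard.1 hK).2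
  have h2 : Inside ι (rst (K.map ι) x) := inside_rst.2 fun i hi => by
    obtain ⟨j, _, rfl⟩ := Finset.mem_map.1 hi
    exact ⟨j, rfl⟩
  rcases mem_extS.1 h1 with h3 | h3
  · have h4 := h3.2
    rw [rst_map] at h4
    exact h4
  · exact absurd h2 h3.1

theorem sol_outside (hk : 1 ≤ k) (hkn : k ≤ n) (h : rsts k x ⊆ extS ι a0 Y) {i : Fin n} (hi : i ∉ Set.range ι) :
    x i = a0 := by
  classical
  obtain ⟨K, h1, _, h2⟩ := Finset.exists_subsuperset_card_eq (Finset.subset_univ ({i} : Finset (Fin n)))
    (n := k) (by rw [Finset.card_singleton]; exact hk) (by rw [Finset.card_univ, Fintype.card_fin]; exact hkn)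
  have hiK : i ∈ K := h1 (Finset.mem_singleton_self i)
  have h3 : rst K x ∈ extS ι a0 Y := h (mem_image_of_mem _ (Finset.mem_powersetCard.2 ⟨Finset.subset_univ _, h2⟩))
  have h5 : rst K x i = none ∨ rst K x i = some a0 := by
    rcases mem_extS.1 h3 with h4 | h4
    · exact absurd (inside_rst.1 h4.1 i hiK) hi
    · exact h4.2 i hi
  unfold rst at h5
  rw [if_pos hiK] at h5
  rcases h5 with h5 | h5
  · exact absurd h5 (by simp)
  · exact Option.some.inj h5

theorem sol_of_block (h0 : ∀ i, i ∉ Set.range ι → x i = a0) (h : rsts k (fun i => x (ι i)) ⊆ Y) :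
    rsts k x ⊆ extS ι a0 Y := by
  classical
  intro β hβ
  obtain ⟨K, hK, rfl⟩ := mem_image.1 hβ
  by_cases h1 : Inside ι (rst K x)
  · refine mem_extS.2 (Or.inl ⟨h1, ?_⟩)
    have h2 := inside_rst.1 h1
    have h3 : (univ.filter fun j => ι j ∈ K).map ι = K := by
      ext i
      rw [Finset.mem_map]
      constructor
      · rintro ⟨j, hj, rfl⟩
        exact (mem_filter.1 hj).2
      · intro hi
        obtain ⟨j, rfl⟩ := h2 i hi
        exact ⟨j, mem_filter.2 ⟨mem_univ _, hi⟩, rfl⟩
    rw [← h3, rst_map]
    refine h (mem_image_of_mem _ (Finset.mem_powersetCard.2 ⟨Finset.subset_univ _, ?_⟩))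
    rw [← Finset.card_map ι, h3]
    exact (Finset.mem_powersetCard.1 hK).2
  · refine mem_extS.2 (Or.inr ⟨h1, fun i hi => ?_⟩)
    unfold rst
    by_cases h2 : i ∈ K
    · rw [if_pos h2, h0 i hi]
      exact Or.inr rfl
    · rw [if_neg h2]
      exact Or.inl rfl

/-- uniqueness of the solution is preserved -/
theorem unique_ext (hk : 1 ≤ k) (hkn : k ≤ n) (h : ∃! x : Fin r → A, rsts k x ⊆ Y) :
    ∃! x : Fin n → A, rsts k x ⊆ extS ι a0 Y := by
  classical
  obtain ⟨x, hx, hu⟩ := h
  have h1 : (fun i => Function.extend ι x (fun _ => a0) (ι i)) = x := by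
    funext i
    exact ι.injective.extend_apply _ _ _
  refine ⟨Function.extend ι x fun _ => a0, sol_of_block (fun i hi => ?_) ?_, fun x' hx' => ?_⟩
  · exact Function.extend_apply' _ _ _ hi
  · rw [h1]
    exact hx
  · funext i
    by_cases hi : i ∈ Set.range ι
    · obtain ⟨j, rfl⟩ := hi
      have h2 := congrFun (hu _ (sol_block hx')) j
      rw [ι.injective.extend_apply]
      exact h2
    · rw [Function.extend_apply' _ _ _ hi]
      exact sol_outside hk hkn hx' hi

end

end Pool.Agent.Helper1x.EH
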