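import Pool.Agent.Helper1x.EH.Abs

/-!
# Circuits with matching gates (Pfaffians, hafnians)
-/

set_option autoImplicit false

namespace Pool.Agent.Helper1x.EH

open Finset Matrix Pool.Agent.Helper1x.EP Pool.Agent.Helper1x.EB
open Pool.Agent.Helper1x.EC (Earlier Quadratic DetGate MatrixFunctionGate scale ju ju_injective)

variable {X : Type*} {K : Type*} [Field K]

/-- gate for a matching function `∑ τ, χ τ ∏_{v < τ v} M v (τ v)` of size `m` (Pfaffian, hafnian, ...), `τ` runs through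
the perfect matchings of the complete graph on `Fin m` -/
def MatchingGate (c : X → K) (p : ℕ → MvPolynomial X K) (k m : ℕ) : Prop :=
  ∃ (M : Matrix (Fin m) (Fin m) (MvPolynomial X K)) (b : Fin m → Kˣ) (χ : Equiv.Perm (Fin m) → K),
    (∀ u v, M u v ∈ Earlier p k) ∧
    (∀ u v, scale c (M u v) = MvPolynomial.C ((b u : K) * (b v : K)) * M u v) ∧
    p k = ∑ τ ∈ (univ : Finset (Equiv.Perm (Fin m))).filter (fun τ => ∀ v, τ (τ v) = v ∧ τ v ≠ v),
      MvPolynomial.C (χ τ) * ∏ v ∈ (univ : Finset (Fin m)).filter (fun v => v < τ v), M v (τ v)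

/-- `p 0, ..., p (G - 1)` is a circuit which is equivariant under the substitution `x ↦ c x` -/
def Circuit (c : X → K) (G : ℕ) (p : ℕ → MvPolynomial X K) (m : ℕ → ℕ) : Prop :=
  ∀ k < G, (∃ a : K, scale c (p k) = MvPolynomial.C a * p k) ∧
    (Quadratic p k ∨ DetGate c p k (m k) ∨ MatrixFunctionGate c p k (m k) ∨ MatchingGate c p k (m k))

/-- the data of the parts at a gate -/
def Data {H : Type*} [CommGroup H] {ι : Type} (W : (X →₀ ℕ) → H) (T : Bool) (b μ : ι → H) (d : ι → X →₀ ℕ) : Prop :=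
  (T = true ∧ PermParts W b μ d) ∨ (T = false ∧ MatchParts W b d)

variable {L : Type*} [Field L] [Algebra K L] {c : X → Kˣ}

theorem matching_str {p : ℕ → MvPolynomial X K} {k m : ℕ} (h : MatchingGate (fun x => (c x : K)) p k m) :
    ∃ b : Fin m → Lˣ, ∀ u, Occ p k u → ∃ d : Fin m → X →₀ ℕ, ∑ j, d j = u ∧ (∀ j, Part (Occ p) k (d j)) ∧
      MatchParts (wL L c) b d := by
  classical
  obtain ⟨M, b, χ, hM, hgr, hp⟩ := h
  refine ⟨fun v => ju K L (b v), fun u hu => ?_⟩
  have h1 : MvPolynomial.coeff u (p k) ≠ 0 := hu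
  rw [hp, MvPolynomial.coeff_sum] at h1
  obtain ⟨τ, hτ, hπ⟩ := Finset.exists_ne_zero_of_sum_ne_zero h1
  have hτ2 := (mem_filter.1 hτ).2
  rw [MvPolynomial.coeff_C_mul] at hπ
  obtain ⟨d, hd1, hd2⟩ := coeff_prod_ne _ _ _ (right_ne_zero_of_mul hπ)
  have hWd : ∀ v, v < τ v → wL L c (d v) = ju K L (b v) * ju K L (b (τ v)) := by
    intro v hv
    have hv' : v ∈ (univ : Finset (Fin m)).filter (fun v => v < τ v) := mem_filter.2 ⟨mem_univ v, hv⟩
    have h2 : mwt c (d v) = b v * b (τ v) := by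
      have h3 := congrArg (MvPolynomial.coeff (d v)) (hgr v (τ v))
      rw [coeff_scale_c, MvPolynomial.coeff_C_mul] at h3
      exact Units.ext (mul_right_cancel₀ (hd2 v hv') h3)
    unfold wL
    rw [h2, map_mul]
  have hW0 : wL L c 0 = 1 := wL_mult.1
  have hlt : ∀ v, v < τ v → ¬ τ v < τ (τ v) := by
    intro v hv h2
    rw [(hτ2 v).1] at h2
    exact lt_asymm hv h2
  refine ⟨fun v => if v < τ v then d v else 0, ?_, fun j => ?_, fun v => τ v, fun v => (hτ2 v).1, fun v => (hτ2 v).2,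
    fun v => ?_, fun v => ?_⟩
  · rw [← Finset.sum_filter]
    exact hd1
  · by_cases hj : j < τ j
    · simp only [if_pos hj]
      exact part_of_earlier (hM _ _) (hd2 j (mem_filter.2 ⟨mem_univ j, hj⟩))
    · simp only [if_neg hj]
      left
      rw [sz_zero]
      exact Nat.zero_le 1
  · by_cases hv : v < τ v
    · right
      simp only [if_neg (hlt v hv)]
    · left
      simp only [if_neg hv]
  · by_cases hv : v < τ v
    · simp only [if_pos hv, if_neg (hlt v hv)]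
      rw [hW0, mul_one, hWd v hv]
    · have hv2 : τ v < τ (τ v) := by
        rw [(hτ2 v).1]
        exact lt_of_le_of_ne (not_lt.1 hv) (hτ2 v).2
      simp only [if_neg hv, if_pos hv2]
      rw [hW0, one_mul, hWd _ hv2, (hτ2 v).1, mul_comm]

theorem circuit_str [IsAlgClosed L] {G : ℕ}
    {p : ℕ → MvPolynomial X K} {m : ℕ → ℕ} (hc : Circuit (fun x => (c x : K)) G p m) (k : ℕ) :
    ∃ (l : Lˣ) (T : Bool) (b μ : Fin (m k) → Lˣ), k < G →
      (∀ u, Occ p k u → wL L c u = l) ∧ ∀ u, Occ p k u → (∃ u1 u2, u1 + u2 = u ∧ Part (Occ p) k u1 ∧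
        Part (Occ p) k u2) ∨ ∃ d : Fin (m k) → X →₀ ℕ, ∑ j, d j = u ∧ (∀ j, Part (Occ p) k (d j)) ∧
          Data (wL L c) T b μ d := by
  classical
  by_cases hk : k < G
  · obtain ⟨⟨a, ha⟩, hgate⟩ := hc k hk
    have hlab : ∃ l : Lˣ, ∀ u, Occ p k u → wL L c u = l := by
      by_cases hex : ∃ u, Occ p k u
      · obtain ⟨u0, h0⟩ := hex
        have hval : ∀ u, Occ p k u → ((mwt c u : Kˣ) : K) = a := by
          intro u hu
          have h3 := congrArg (MvPolynomial.coeff u) ha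
          rw [coeff_scale_c, MvPolynomial.coeff_C_mul] at h3
          exact mul_right_cancel₀ hu h3
        refine ⟨ju K L (mwt c u0), fun u hu => ?_⟩
        unfold wL
        rw [Units.ext ((hval u hu).trans (hval u0 h0).symm)]
      · exact ⟨1, fun u hu => absurd ⟨u, hu⟩ hex⟩
    obtain ⟨l, hl⟩ := hlab
    have hstr : ∃ (T : Bool) (b μ : Fin (m k) → Lˣ), ∀ u, Occ p k u → (∃ u1 u2, u1 + u2 = u ∧ Part (Occ p) k u1 ∧
        Part (Occ p) k u2) ∨ ∃ d : Fin (m k) → X →₀ ℕ, ∑ j, d j = u ∧ (∀ j, Part (Occ p) k (d j)) ∧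
          Data (wL L c) T b μ d := by
      have hper : (∃ b μ : Fin (m k) → Lˣ, Str (wL L c) (Occ p) k b μ) → ∃ (T : Bool) (b μ : Fin (m k) → Lˣ),
          ∀ u, Occ p k u → (∃ u1 u2, u1 + u2 = u ∧ Part (Occ p) k u1 ∧
          Part (Occ p) k u2) ∨ ∃ d : Fin (m k) → X →₀ ℕ, ∑ j, d j = u ∧ (∀ j, Part (Occ p) k (d j)) ∧
          Data (wL L c) T b μ d := by
        rintro ⟨b, μ, _, h⟩
        refine ⟨true, b, μ, fun u hu => ?_⟩
        rcases h u hu with h | ⟨ψ, d, h1, h2, h3⟩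
        · exact Or.inl h
        · exact Or.inr ⟨d, h1, h3, Or.inl ⟨rfl, ψ, h2⟩⟩
      rcases hgate with h | h | h | h
      · exact ⟨true, fun _ => 1, fun _ => 1, fun u hu => Or.inl (quadratic_parts h hu)⟩
      · exact hper (det_str h)
      · exact hper (matfun_str h)
      · obtain ⟨b, hb⟩ := matching_str (L := L) h
        refine ⟨false, b, fun _ => 1, fun u hu => Or.inr ?_⟩
        obtain ⟨d, h1, h2, h3⟩ := hb u hu
        exact ⟨d, h1, h2, Or.inr ⟨rfl, h3⟩⟩
    obtain ⟨T, b, μ, h⟩ := hstr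
    exact ⟨l, T, b, μ, fun _ => ⟨hl, h⟩⟩
  · exact ⟨1, true, fun _ => 1, fun _ => 1, fun h => absurd h hk⟩

end Pool.Agent.Helper1x.EH
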