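import Pool.Agent.Helper1x.EH.Gates

/-!
# Substitution of variables and constants for the variables of a circuit
-/

set_option autoImplicit false

namespace Pool.Agent.Helper1x.EH

open Finset MvPolynomial
open Pool.Agent.Helper1x.EC (Earlier Quadratic DetGate MatrixFunctionGate scale)

section

variable {X Y K : Type*} [Field K]

/-- the substitution of the variable `ρ x`, or of the constant `z x`, for the variable `x` -/
noncomputable def subs (ρ : X → Option Y) (z : X → K) : MvPolynomial X K →ₐ[K] MvPolynomial Y K :=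
  aeval fun x => (ρ x).elim (C (z x)) MvPolynomial.X

variable {ρ : X → Option Y} {z : X → K}

theorem subs_X (x : X) : subs ρ z (MvPolynomial.X x) = (ρ x).elim (C (z x)) MvPolynomial.X := by
  rw [subs, aeval_X]

theorem subs_C (a : K) : subs ρ z (C a) = C a := (subs ρ z).commutes a

theorem scale_subs {c : X → K} {c' : Y → K} (h1 : ∀ x y, ρ x = some y → c x = c' y)
    (h2 : ∀ x, ρ x = none → c x * z x = z x) (q : MvPolynomial X K) :
    scale c' (subs ρ z q) = subs ρ z (scale c q) := by
  have h : (scale c').comp (subs ρ z) = (subs ρ z).comp (scale c) := by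
    refine MvPolynomial.algHom_ext fun x => ?_
    have h3 : scale c (MvPolynomial.X x) = C (c x) * MvPolynomial.X x := by
      rw [scale, aeval_X]
    rw [AlgHom.comp_apply, AlgHom.comp_apply, h3, map_mul, subs_C, subs_X]
    rcases hx : ρ x with _ | y
    · show scale c' (C (z x)) = C (c x) * C (z x)
      rw [← C_mul, h2 x hx]
      exact (scale c').commutes _
    · show scale c' (MvPolynomial.X y) = C (c x) * MvPolynomial.X y
      rw [scale, aeval_X, h1 x y hx]
  exact DFunLike.congr_fun h q

theorem subs_earlier (p : ℕ → MvPolynomial X K) (j : ℕ) {q : MvPolynomial X K}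
    (hq : q ∈ Earlier p j) : subs ρ z q ∈ Earlier (fun i => subs ρ z (p i)) j := by
  rw [Earlier] at hq
  induction hq using Submodule.span_induction with
  | mem x hx =>
    rcases hx with (hx | ⟨y, rfl⟩) | ⟨i, hi, rfl⟩
    · rw [Set.mem_singleton_iff.1 hx, map_one]
      exact Submodule.subset_span (Or.inl (Or.inl rfl))
    · rw [subs_X]
      rcases hy : ρ y with _ | y'
      · show C (z y) ∈ _
        have h1 : (C (z y) : MvPolynomial Y K) = z y • 1 := by
          rw [MvPolynomial.smul_eq_C_mul, mul_one]
        rw [h1]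
        exact Submodule.smul_mem _ _ (Submodule.subset_span (Or.inl (Or.inl rfl)))
      · exact Submodule.subset_span (Or.inl (Or.inr ⟨y', rfl⟩))
    · exact Submodule.subset_span (Or.inr ⟨i, hi, rfl⟩)
  | zero => rw [map_zero]; exact Submodule.zero_mem _
  | add x y _ _ hx hy => rw [map_add]; exact Submodule.add_mem _ hx hy
  | smul c x _ hx => rw [map_smul]; exact Submodule.smul_mem _ _ hx

theorem subs_quad (p : ℕ → MvPolynomial X K) (j : ℕ) {q : MvPolynomial X K}
    (hq : q ∈ Earlier p j * Earlier p j) :
    subs ρ z q ∈ Earlier (fun i => subs ρ z (p i)) j * Earlier (fun i => subs ρ z (p i)) j := by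
  induction hq using Submodule.mul_induction_on' with
  | mem_mul_mem x hx y hy =>
    rw [map_mul]
    exact Submodule.mul_mem_mul (subs_earlier p j hx) (subs_earlier p j hy)
  | add x _ y _ hx hy => rw [map_add]; exact Submodule.add_mem _ hx hy

/-- the image of a circuit under a substitution -/
theorem subs_circuit {c : X → K} {c' : Y → K} (h1 : ∀ x y, ρ x = some y → c x = c' y)
    (h2 : ∀ x, ρ x = none → c x * z x = z x) {G : ℕ} {p : ℕ → MvPolynomial X K} {m : ℕ → ℕ}
    (hp : Circuit c G p m) : Circuit c' G (fun i => subs ρ z (p i)) m := by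
  have hsc := scale_subs h1 h2
  intro j hj
  obtain ⟨⟨r, hr⟩, h⟩ := hp j hj
  refine ⟨⟨r, ?_⟩, ?_⟩
  · rw [hsc, hr, map_mul, subs_C]
  rcases h with h | ⟨M, B, D, hM, hB, hD, hs, hd⟩ | ⟨M, b, μ, χ, hM, hs, hd⟩ | ⟨M, b, χ, hM, hs, hd⟩
  · exact Or.inl (subs_quad p j h)
  · refine Or.inr (Or.inl ⟨M.map (subs ρ z), B, D, fun u v => subs_earlier p j (hM u v), hB, hD,
      ?_, ?_⟩)
    · have h1 : (M.map (subs ρ z)).map (scale c') = (M.map (scale c)).map (subs ρ z) := by
        ext1 u v
        exact hsc (M u v)
      have h2 : ∀ A : Matrix (Fin (m j)) (Fin (m j)) K,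
          (A.map C : Matrix _ _ (MvPolynomial X K)).map (subs ρ z) = A.map C := by
        intro A
        ext1 u v
        exact subs_C (A u v)
      rw [h1, hs, Matrix.map_mul, Matrix.map_mul, h2, h2]
    · show subs ρ z (p j) = _
      rw [hd]
      exact AlgHom.map_det (subs ρ z) M
  · refine Or.inr (Or.inr (Or.inl ⟨M.map (subs ρ z), b, μ, χ, fun u v => subs_earlier p j (hM u v),
      fun u v => ?_, ?_⟩))
    · show scale _ (subs ρ z (M u v)) = _ * subs ρ z (M u v)
      rw [hsc, hs, map_mul, subs_C]
    · show subs ρ z (p j) = _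
      rw [hd, map_sum]
      refine Finset.sum_congr rfl fun π _ => ?_
      rw [map_mul, subs_C, map_prod]
      rfl
  · refine Or.inr (Or.inr (Or.inr ⟨M.map (subs ρ z), b, χ, fun u v => subs_earlier p j (hM u v),
      fun u v => ?_, ?_⟩))
    · show scale _ (subs ρ z (M u v)) = _ * subs ρ z (M u v)
      rw [hsc, hs, map_mul, subs_C]
    · show subs ρ z (p j) = _
      rw [hd, map_sum]
      refine Finset.sum_congr rfl fun τ _ => ?_
      rw [map_mul, subs_C, map_prod]
      rfl

/-- the values of the substituted polynomial -/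
theorem eval_subs (w : Y → K) (f : MvPolynomial X K) :
    MvPolynomial.eval w (subs ρ z f) = MvPolynomial.eval (fun x => (ρ x).elim (z x) w) f := by
  induction f using MvPolynomial.induction_on with
  | C a => rw [subs_C, MvPolynomial.eval_C, MvPolynomial.eval_C]
  | add p q hp hq => rw [map_add, map_add, map_add, hp, hq]
  | mul_X p x hp =>
    rw [map_mul, map_mul, map_mul, hp, subs_X, MvPolynomial.eval_X]
    congr 1
    rcases ρ x with _ | y
    · exact MvPolynomial.eval_C _
    · exact MvPolynomial.eval_X _

/-- the degrees of the substituted polynomial -/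
theorem degree_subs (hρ : ∀ x x' y, ρ x = some y → ρ x' = some y → x = x') {D : ℕ} {f : MvPolynomial X K}
    (hf : ∀ x, f.degreeOf x ≤ D) (y : Y) : (subs ρ z f).degreeOf y ≤ D := by
  classical
  have h1 : ∀ x, ((ρ x).elim (C (z x)) MvPolynomial.X : MvPolynomial Y K).degreeOf y ≤
      if ρ x = some y then 1 else 0 := by
    intro x
    rcases ρ x with _ | y'
    · show (C (z x) : MvPolynomial Y K).degreeOf y ≤ _
      rw [degreeOf_C]
      exact Nat.zero_le _
    · show (MvPolynomial.X y' : MvPolynomial Y K).degreeOf y ≤ _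
      rw [degreeOf_X]
      by_cases h : y = y'
      · rw [if_pos h, h, if_pos rfl]
      · rw [if_neg h]
        exact Nat.zero_le _
  have h2 : ∀ u ∈ f.support, (subs ρ z (monomial u (f.coeff u))).degreeOf y ≤ D := by
    intro u hu
    rw [subs, aeval_monomial, algebraMap_eq]
    refine (degreeOf_C_mul_le _ _ _).trans ?_
    rw [Finsupp.prod]
    refine (degreeOf_prod_le _ _ _).trans ?_
    have h3 : ∀ x ∈ u.support, (((ρ x).elim (C (z x)) MvPolynomial.X : MvPolynomial Y K) ^ u x).degreeOf y ≤
        if ρ x = some y then u x else 0 := by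
      intro x _
      refine (degreeOf_pow_le _ _ _).trans ((Nat.mul_le_mul_left _ (h1 x)).trans ?_)
      split_ifs
      · rw [mul_one]
      · rw [mul_zero]
    refine (Finset.sum_le_sum h3).trans ?_
    by_cases hex : ∃ x ∈ u.support, ρ x = some y
    · obtain ⟨x, hx, hxy⟩ := hex
      rw [Finset.sum_eq_single_of_mem x hx fun x' _ hne => if_neg fun h => hne (hρ x' x y h hxy), if_pos hxy]
      exact (monomial_le_degreeOf x hu).trans (hf x)
    · push Not at hex
      rw [Finset.sum_eq_zero fun x hx => if_neg (hex x hx)]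
      exact Nat.zero_le _
  rw [f.as_sum, map_sum]
  exact (degreeOf_sum_le y _ _).trans (Finset.sup_le h2)

end

end Pool.Agent.Helper1x.EH
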