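import Pool.Agent.Helper1x.EH.Gates

/-!
# Circuits without matching gates
-/

set_option autoImplicit false

namespace Pool.Agent.Helper1x.EH

/-- circuits without matching gates are circuits with matching gates -/
theorem liftC {X : Type*} {K : Type*} [Field K] {c : X → K} {G : ℕ} {p : ℕ → MvPolynomial X K} {m : ℕ → ℕ}
    (h : EC.Circuit c G p m) : Circuit c G p m := by
  intro k hk
  obtain ⟨h1, h2⟩ := h k hk
  refine ⟨h1, ?_⟩
  rcases h2 with h2 | h2 | h2
  · exact Or.inl h2
  · exact Or.inr (Or.inl h2)
  · exact Or.inr (Or.inr (Or.inl h2))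

end Pool.Agent.Helper1x.EH
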