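import Pool.Agent.Helper1x.EH.Uni
import Pool.Agent.Helper1x.EM.Low

/-!
# The lower bound for matchings, circuits with matching gates
-/

set_option autoImplicit false

namespace Pool.Agent.Helper1x.EH

open Finset Pool.Agent.Helper1x.EB
open Pool.Agent.Helper1x.EM (S_WTA S_WTB S_CNA S_CNB S_NMA S_NMB Generic Good wtp ex cell cell_injective wL_wp SmallM
  small_cut small_rel)
open Pool.Agent.Helper1x.EC (V Earlier cof ju ju_injective)
open Pool.Agent.Helper1x.EG (sum_sq2)
open Pool.Agent.Helper1x.EP (mwt)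

section

variable {n e : ℕ} {K : Type} [Field K] {D : ℕ} {S : Fin n → Kˣ} {T : Fin e → Fin n → Kˣ}

open Classical in
/-- The lower bound. -/
theorem lowerM (hWTA : S_WTA) (hWTB : S_WTB) (hCNA : S_CNA) (hCNB : S_CNB) (hNMA : S_NMA) (hNMB : S_NMB)
    (hn : 400 ≤ n) (he : 2 ≤ e) (hgen : Generic D S T) {G : ℕ} {p : ℕ → MvPolynomial (V n e) K}
    {m : ℕ → ℕ} (hc : Circuit (fun x => (cof S T x : K)) G p m) {f : MvPolynomial (V n e) K} (hf : f ∈ Earlier p G)
    {R : ℕ} (hR : n.factorial ^ e ≤ R * (univ.filter fun σ : Fin e → Equiv.Perm (Fin n) =>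
      ∃ u, MvPolynomial.coeff u f ≠ 0 ∧ u.support = univ.image (cell σ) ∧ ∀ β, u β ≤ D).card) :
    2 ^ (e * n) ≤ (2 * R * (∑ j ∈ range G, (m j + 1)) ^ 2) ^ 20 := by
  set s : ℕ := ∑ j ∈ range G, (m j + 1) with hs
  set a : ℕ := (n + 39) / 40 with ha
  set w0 : ℕ := (n + 9) / 10 with hw0
  set L := AlgebraicClosure K with hL
  set S' : Fin n → Lˣ := fun i => ju K L (S i) with hS'
  set T' : Fin e → Fin n → Lˣ := fun s j => ju K L (T s j) with hT'
  have hgen' : Generic D S' T' := hgen.map _ ju_injective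
  set W : (V n e →₀ ℕ) → Lˣ := wL L (cof S T) with hW
  have hWm : Mult W := wL_mult
  have hwt : ∀ σ u, Good D σ u → W u = wtp S' T' σ (ex σ u) := fun σ u hu => wL_wp S T hu
  choose l B b μ hstr using fun j => circuit_str (L := L) (c := cof S T) hc j
  have hdesc : ∀ σ, ∀ j < G, ∀ u, Occ p j u → Good D σ u → n - a < sz u →
      (∃ u', Good D σ u' ∧ a ≤ sz u' ∧ sz u' ≤ n - a ∧ ∃ j < G, W u' = l j) ∨
      ∃ j < G, ∃ d, Good D σ (∑ i, d i) ∧ n - a < sz (∑ i, d i) ∧ (∀ i, sz (d i) < a) ∧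
        Data W (B j) (b j) (μ j) d := by
    intro σ
    exact descent (W := W) (Good := Good D σ) (fun u v h hv => hv.mono h) (N := n) (G := G) (m := m)
      (l := l) (a := a) (by omega) (by omega) (Q := Occ p) (fun j hj u h => (hstr j hj).1 u h)
      (Data := fun j d => Data W (B j) (b j) (μ j) d) (fun j hj => (hstr j hj).2)
  -- the largest size of a small set
  set q := n.factorial ^ e with hq
  set M := Nat.findGreatest (fun M => M ^ 20 * 2 ^ (e * n) ≤ q ^ 20) q with hM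
  have hM1 : M ^ 20 * 2 ^ (e * n) ≤ q ^ 20 := by
    have h0 : (fun M => M ^ 20 * 2 ^ (e * n) ≤ q ^ 20) 0 := by simp
    exact Nat.findGreatest_spec (P := fun M => M ^ 20 * 2 ^ (e * n) ≤ q ^ 20) (Nat.zero_le q) h0
  have hM2 : ∀ X : Finset (Fin e → Equiv.Perm (Fin n)), SmallM X → X.card ≤ M := by
    intro X hX
    refine Nat.le_findGreatest ?_ hX
    have h1 := Finset.card_le_univ X
    rwa [Fintype.card_fun, Fintype.card_perm, Fintype.card_fin, Fintype.card_fin] at h1
  set cutset : ℕ → Finset (Fin e → Equiv.Perm (Fin n)) := fun j => univ.filter fun σ =>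
    ∃ u, Good D σ u ∧ a ≤ sz u ∧ sz u ≤ n - a ∧ wtp S' T' σ (ex σ u) = l j with hcut
  set walkset : ℕ → Finset (Fin e → Equiv.Perm (Fin n)) := fun j => univ.filter fun σ =>
    ∃ d, Good D σ (∑ i, d i) ∧ n - a < sz (∑ i, d i) ∧ (∀ i, sz (d i) < a) ∧
        Data W (B j) (b j) (μ j) d with hwalk
  have hcover : (univ.filter fun σ : Fin e → Equiv.Perm (Fin n) => ∃ u, MvPolynomial.coeff u f ≠ 0 ∧
      u.support = univ.image (cell σ) ∧ ∀ β, u β ≤ D) ⊆
      (range G).biUnion cutset ∪ (range G).biUnion walkset := by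
    intro σ hσ
    obtain ⟨_, u, hu1, hu2, hu3⟩ := mem_filter.1 hσ
    have hgood : Good D σ u := by
      refine ⟨fun β hβ => ?_, hu3⟩
      have h1 := Finsupp.mem_support_iff.2 hβ
      rw [hu2] at h1
      obtain ⟨i, _, h2⟩ := mem_image.1 h1
      exact ⟨i, h2⟩
    have hsz : sz u = n := by
      unfold sz
      rw [hu2, Finset.card_image_of_injective _ (cell_injective σ), Finset.card_univ, Fintype.card_fin]
    have h1 := part_of_earlier hf hu1
    rcases h1 with h1 | ⟨j, hj, h1⟩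
    · omega
    · rw [mem_union]
      rcases hdesc σ j hj u h1 hgood (by omega) with ⟨u', h2, h3, h4, i, hi, h5⟩ | ⟨i, hi, d, h2, h3, h4, h5⟩
      · refine Or.inl (mem_biUnion.2 ⟨i, mem_range.2 hi, mem_filter.2 ⟨mem_univ _, u', h2, h3, h4, ?_⟩⟩)
        rw [← hwt σ u' h2, h5]
      · exact Or.inr (mem_biUnion.2 ⟨i, mem_range.2 hi, mem_filter.2 ⟨mem_univ _, d, h2, h3, h4, h5⟩⟩)
  have h1 : ((range G).biUnion cutset).card ≤ (G + ∑ j ∈ range G, m j * m j) * M := by
    refine Finset.card_biUnion_le.trans ?_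
    refine (Finset.sum_le_card_nsmul _ _ M fun j _ => hM2 _ (small_cut hWTA hCNA hNMA hgen' (a := a) (by omega)
      (by omega) (l j) fun σ hσ => (mem_filter.1 hσ).2)).trans ?_
    rw [smul_eq_mul, card_range]
    exact Nat.mul_le_mul_right _ (Nat.le_add_right _ _)
  have h2 : ((range G).biUnion walkset).card ≤ (G + ∑ j ∈ range G, m j * m j) * M := by
    refine Finset.card_biUnion_le.trans ?_
    have h3 : ∀ j ∈ range G, (walkset j).card ≤ (m j * m j + 1) * M := by
      intro j _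
      rcases (walkset j).eq_empty_or_nonempty with h0 | ⟨σ₀, hσ₀⟩
      · rw [h0, Finset.card_empty]
        exact Nat.zero_le _
      obtain ⟨_, dy, hy1, hy2, hy3, hy4⟩ := mem_filter.1 hσ₀
      set rel : Lˣ × Lˣ → Finset (Fin e → Equiv.Perm (Fin n)) := fun h => univ.filter fun σ =>
        ∃ u u', Good D σ u ∧ Good D σ₀ u' ∧ w0 ≤ sz u ∧ sz u < w0 + a ∧
          h.1 * wtp S' T' σ₀ (ex σ₀ u') = h.2 * wtp S' T' σ (ex σ u) with hrel
      have h4 : walkset j ⊆ (factors (B j) (b j)).biUnion rel := by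
        intro σ hσ
        obtain ⟨_, dx, hx1, hx2, hx3, hx4⟩ := mem_filter.1 hσ
        obtain ⟨h, hh, P, P', h5, h6, h7⟩ := traverse hWm hx3 hx4 hy4 (w0 := w0) (by omega) (by omega)
        have hg : Good D σ (∑ z ∈ P, dx z) := hx1.mono (sum_le_of_subset (Finset.subset_univ P) dx)
        have hg' : Good D σ₀ (∑ z ∈ P', dy z) := hy1.mono (sum_le_of_subset (Finset.subset_univ P') dy)
        rw [hwt σ _ hg, hwt σ₀ _ hg'] at h7
        exact mem_biUnion.2 ⟨h, hh, mem_filter.2 ⟨mem_univ _, _, _, hg, hg', h5, h6, h7⟩⟩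
      refine (Finset.card_le_card h4).trans (Finset.card_biUnion_le.trans ?_)
      refine (Finset.sum_le_card_nsmul _ _ M fun h _ => hM2 _ (small_rel hWTB hCNA hCNB hNMB hn he hgen' (a := a)
        (w0 := w0) (by omega) (by omega) (by omega) (by omega) σ₀ h.1 h.2
        fun σ hσ => (mem_filter.1 hσ).2)).trans ?_
      rw [smul_eq_mul]
      refine Nat.mul_le_mul_right _ ((card_factors _ _).trans ?_)
      rw [Fintype.card_fin]
    refine (Finset.sum_le_sum h3).trans ?_
    rw [← Finset.sum_mul]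
    refine Nat.mul_le_mul_right _ ?_
    rw [Finset.sum_add_distrib, Finset.sum_const, card_range, smul_eq_mul, mul_one, add_comm]
  have h3 : q ≤ 2 * R * s ^ 2 * M := by
    refine hR.trans ?_
    calc R * (univ.filter fun σ : Fin e → Equiv.Perm (Fin n) => ∃ u, MvPolynomial.coeff u f ≠ 0 ∧
          u.support = univ.image (cell σ) ∧ ∀ β, u β ≤ D).card ≤
        R * ((G + ∑ j ∈ range G, m j * m j) * M + (G + ∑ j ∈ range G, m j * m j) * M) :=
          Nat.mul_le_mul_left _ ((Finset.card_le_card hcover).trans ((Finset.card_union_le _ _).trans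
            (Nat.add_le_add h1 h2)))
      _ = 2 * R * (G + ∑ j ∈ range G, m j * m j) * M := by ring
      _ ≤ 2 * R * s ^ 2 * M := Nat.mul_le_mul_right _ (Nat.mul_le_mul_left _ (sum_sq2 G m))
  have hqpos : 0 < q := pow_pos (Nat.factorial_pos n) _
  have hqpos : 0 < q ^ 20 := pow_pos hqpos 20
  refine Nat.le_of_mul_le_mul_left ?_ hqpos
  calc q ^ 20 * 2 ^ (e * n) ≤ (2 * R * s ^ 2 * M) ^ 20 * 2 ^ (e * n) :=
        Nat.mul_le_mul_right _ (Nat.pow_le_pow_left h3 20)
    _ = (2 * R * s ^ 2) ^ 20 * (M ^ 20 * 2 ^ (e * n)) := by ring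
    _ ≤ (2 * R * s ^ 2) ^ 20 * q ^ 20 := Nat.mul_le_mul_left _ hM1
    _ = q ^ 20 * (2 * R * s ^ 2) ^ 20 := mul_comm _ _

end

end Pool.Agent.Helper1x.EH
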