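import Pool.Agent.Helper1x.EH.LowM

/-!
# The lower bound for matchings, circuits with small matrices
-/

set_option autoImplicit false

namespace Pool.Agent.Helper1x.EH

open Finset Pool.Agent.Helper1x.EB
open Pool.Agent.Helper1x.EM (S_WTA S_CNA Generic Good wtp ex cell cell_injective wL_wp sp sz_eq perm_inv_apply
  perm_apply_inv)
open Pool.Agent.Helper1x.EC (V Earlier cof ju ju_injective)
open Pool.Agent.Helper1x.EP (mwt)

theorem choose_mono_half {n : ℕ} {a w : ℕ} (h : a ≤ w) (hw : 2 * w ≤ n) : n.choose a ≤ n.choose w := by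
  induction w, h using Nat.le_induction with
  | base => exact le_rfl
  | succ w h ih => exact (ih (by omega)).trans (Nat.choose_le_succ_of_lt_half_left (by omega))

theorem choose_mono_mid {n : ℕ} {a w : ℕ} (h : a ≤ w) (hw : w + a ≤ n) : n.choose a ≤ n.choose w := by
  rcases Nat.le_total (2 * w) n with h1 | h1
  · exact choose_mono_half h h1
  · rw [← Nat.choose_symm (show w ≤ n by omega)]
    exact choose_mono_half (by omega) (by omega)

section

variable {n e : ℕ} {K : Type} [Field K] {D : ℕ} {S : Fin n → Kˣ} {T : Fin e → Fin n → Kˣ}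

/-- the number of the matchings with a cut of a given weight -/
theorem cut_count (hWTA : S_WTA) (hCNA : S_CNA) (hgen : Generic D S T) {a : ℕ} (h : Kˣ)
    {X : Finset (Fin e → Equiv.Perm (Fin n))} (han : a ≤ n)
    (hX : ∀ σ ∈ X, ∃ u, Good D σ u ∧ a ≤ sz u ∧ sz u ≤ n - a ∧ wtp S T σ (ex σ u) = h) :
    X.card * (n.choose a) ^ e ≤ n.factorial ^ e := by
  classical
  rcases X.eq_empty_or_nonempty with h0 | ⟨σ₁, hσ₁⟩
  · rw [h0, Finset.card_empty, zero_mul]
    exact Nat.zero_le _
  obtain ⟨u1, h1, h2, h3, h4⟩ := hX σ₁ hσ₁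
  rw [sz_eq h1] at h2 h3
  have hmem : ∀ (σ : Fin e → Equiv.Perm (Fin n)) s j, j ∈ (sp σ₁ u1).image (σ s) ↔ ex σ₁ u1 ((σ s)⁻¹ j) ≠ 0 := by
    intro σ s j
    rw [mem_image]
    constructor
    · rintro ⟨i, hi, rfl⟩
      rw [perm_inv_apply]
      exact (mem_filter.1 hi).2
    · intro hj
      exact ⟨(σ s)⁻¹ j, mem_filter.2 ⟨mem_univ _, hj⟩, perm_apply_inv _ _⟩
  have hsub : X ⊆ univ.filter fun σ : Fin e → Equiv.Perm (Fin n) =>
      ∀ s, (sp σ₁ u1).image (σ s) = (sp σ₁ u1).image (σ₁ s) := by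
    intro σ hσ
    obtain ⟨u, h5, h6, h7, h8⟩ := hX σ hσ
    refine mem_filter.2 ⟨mem_univ _, fun s => ?_⟩
    ext j
    rw [hmem, hmem, hWTA Kˣ n e D S T hgen σ₁ σ (ex σ₁ u1) (ex σ u) (fun i => h1.2 _) (fun i => h5.2 _)
      (h4.trans h8.symm) s j]
  have h5 := (Finset.card_le_card hsub).trans (hCNA n e (sp σ₁ u1) fun s => (sp σ₁ u1).image (σ₁ s))
  set w := (sp σ₁ u1).card with hw
  calc X.card * n.choose a ^ e ≤ (w.factorial * (n - w).factorial) ^ e * n.choose w ^ e :=
        Nat.mul_le_mul h5 (Nat.pow_le_pow_left (choose_mono_mid h2 (by omega)) e)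
    _ = (n.choose w * w.factorial * (n - w).factorial) ^ e := by
        rw [← mul_pow]
        ring
    _ = n.factorial ^ e := by rw [Nat.choose_mul_factorial_mul_factorial (by omega)]

open Classical in
/-- The lower bound for circuits with matrices of size at most `N`. -/
theorem lowerQ (hWTA : S_WTA) (hCNA : S_CNA) {a N : ℕ} (ha : 2 ≤ a) (ha3 : 3 * a ≤ n) (haN : (N + 1) * a ≤ n)
    (hgen : Generic D S T) {G : ℕ} {p : ℕ → MvPolynomial (V n e) K}
    {m : ℕ → ℕ} (hc : Circuit (fun x => (cof S T x : K)) G p m) (hm : ∀ j < G, m j ≤ N) {f : MvPolynomial (V n e) K}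
    (hf : f ∈ Earlier p G)
    {R : ℕ} (hR : n.factorial ^ e ≤ R * (univ.filter fun σ : Fin e → Equiv.Perm (Fin n) =>
      ∃ u, MvPolynomial.coeff u f ≠ 0 ∧ u.support = univ.image (cell σ) ∧ ∀ β, u β ≤ D).card) :
    (n.choose a) ^ e ≤ R * G := by
  set L := AlgebraicClosure K with hL
  set S' : Fin n → Lˣ := fun i => ju K L (S i) with hS'
  set T' : Fin e → Fin n → Lˣ := fun s j => ju K L (T s j) with hT'
  have hgen' : Generic D S' T' := hgen.map _ ju_injective
  set W : (V n e →₀ ℕ) → Lˣ := wL L (cof S T) with hW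
  have hwt : ∀ σ u, Good D σ u → W u = wtp S' T' σ (ex σ u) := fun σ u hu => wL_wp S T hu
  choose l B b μ hstr using fun j => circuit_str (L := L) (c := cof S T) hc j
  have hdesc : ∀ σ, ∀ j < G, ∀ u, Occ p j u → Good D σ u → n - a < sz u →
      (∃ u', Good D σ u' ∧ a ≤ sz u' ∧ sz u' ≤ n - a ∧ ∃ j < G, W u' = l j) ∨
      ∃ j < G, ∃ d, Good D σ (∑ i, d i) ∧ n - a < sz (∑ i, d i) ∧ (∀ i, sz (d i) < a) ∧
        Data W (B j) (b j) (μ j) d := by
    intro σ
    exact descent (W := W) (Good := Good D σ) (fun u v h hv => hv.mono h) (N := n) (G := G) (m := m)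
      (l := l) (a := a) ha ha3 (Q := Occ p) (fun j hj u h => (hstr j hj).1 u h)
      (Data := fun j d => Data W (B j) (b j) (μ j) d) (fun j hj => (hstr j hj).2)
  set cutset : ℕ → Finset (Fin e → Equiv.Perm (Fin n)) := fun j => univ.filter fun σ =>
    ∃ u, Good D σ u ∧ a ≤ sz u ∧ sz u ≤ n - a ∧ wtp S' T' σ (ex σ u) = l j with hcut
  have hcover : (univ.filter fun σ : Fin e → Equiv.Perm (Fin n) => ∃ u, MvPolynomial.coeff u f ≠ 0 ∧
      u.support = univ.image (cell σ) ∧ ∀ β, u β ≤ D) ⊆ (range G).biUnion cutset := by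
    intro σ hσ
    obtain ⟨_, u, hu1, hu2, hu3⟩ := mem_filter.1 hσ
    have hgood : Good D σ u := by
      refine ⟨fun β hβ => ?_, hu3⟩
      have h1 := Finsupp.mem_support_iff.2 hβ
      rw [hu2] at h1
      obtain ⟨i, _, h2⟩ := mem_image.1 h1
      exact ⟨i, h2⟩
    have hsz : sz u = n := by
      unfold sz
      rw [hu2, Finset.card_image_of_injective _ (cell_injective σ), Finset.card_univ, Fintype.card_fin]
    have h1 := part_of_earlier hf hu1
    rcases h1 with h1 | ⟨j, hj, h1⟩
    · omega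
    · rcases hdesc σ j hj u h1 hgood (by omega) with ⟨u', h2, h3, h4, i, hi, h5⟩ | ⟨i, hi, d, h2, h3, h4, h5⟩
      · refine mem_biUnion.2 ⟨i, mem_range.2 hi, mem_filter.2 ⟨mem_univ _, u', h2, h3, h4, ?_⟩⟩
        rw [← hwt σ u' h2, h5]
      · exfalso
        have h6 : ∀ s : Finset (Fin (m i)), sz (∑ z ∈ s, d z) ≤ s.card * (a - 1) := by
          intro s
          induction s using Finset.induction_on with
          | empty =>
            rw [Finset.sum_empty, sz_zero]
            exact Nat.zero_le _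
          | insert z s hz ih =>
            rw [Finset.sum_insert hz, Finset.card_insert_of_notMem hz, add_mul, one_mul]
            have h7 := sz_add (d z) (∑ z ∈ s, d z)
            have h8 := h4 z
            omega
        have h7 := h6 univ
        rw [Finset.card_univ, Fintype.card_fin] at h7
        have h8 : m i * (a - 1) ≤ N * (a - 1) := Nat.mul_le_mul_right _ (hm i hi)
        have h9 : N * (a - 1) ≤ N * a := Nat.mul_le_mul_left _ (by omega)
        have h10 : (N + 1) * a = N * a + a := by ring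
        omega
  have hpos : 0 < n.factorial ^ e := pow_pos (Nat.factorial_pos n) e
  refine Nat.le_of_mul_le_mul_left ?_ hpos
  calc n.factorial ^ e * n.choose a ^ e ≤ R * ((range G).biUnion cutset).card * n.choose a ^ e :=
        Nat.mul_le_mul_right _ (hR.trans (Nat.mul_le_mul_left _ (Finset.card_le_card hcover)))
    _ ≤ R * (∑ j ∈ range G, (cutset j).card) * n.choose a ^ e :=
        Nat.mul_le_mul_right _ (Nat.mul_le_mul_left _ Finset.card_biUnion_le)
    _ = R * ∑ j ∈ range G, (cutset j).card * n.choose a ^ e := by rw [mul_assoc, Finset.sum_mul]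
    _ ≤ R * ∑ j ∈ range G, n.factorial ^ e := Nat.mul_le_mul_left _ (Finset.sum_le_sum fun j _ =>
        cut_count hWTA hCNA hgen' (l j) (by omega) fun σ hσ => (mem_filter.1 hσ).2)
    _ = n.factorial ^ e * (R * G) := by
        rw [Finset.sum_const, card_range, smul_eq_mul]
        ring

end

end Pool.Agent.Helper1x.EH
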