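import Pool.Agent.Helper1x.EH.Uni
import Pool.Agent.Helper1x.EB.Count

/-!
# The lower bound for satisfiability, circuits with matching gates
-/

set_option autoImplicit false

namespace Pool.Agent.Helper1x.EH

open Finset Pool.Agent.HS38 Pool.Agent.HS38.GT Pool.Agent.Helper1x.EB
open Pool.Agent.Helper1x.EC (Earlier ju ju_injective)
open Pool.Agent.Helper1x.EG (small_agree small_ball gu gu_restr scope_restr restr_injective t_COMB t_COMB2
  le_choose sum_sq2 card_scopes)
open Pool.Agent.Helper1x.EP (mwt)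

section

variable {F V A : Type} [Field F] [Fintype V] [DecidableEq V] [Fintype A] [DecidableEq A]
variable {D k : ℕ} {t : Finset V → V → A → Fˣ}

open Classical in
/-- The lower bound. -/
theorem lowerS (hWEB : S_WEB) (hWHB : S_WHB) (hn : 200 ≤ Fintype.card V) (hA : 2 ≤ Fintype.card A) (hk : 2 ≤ k)
    (hkn : k < Fintype.card V) (ht : Generic D (scopes V k) t) {G : ℕ} {p : ℕ → MvPolynomial (V → Option A) F}
    {m : ℕ → ℕ} (hc : Circuit (gauge t) G p m) {f : MvPolynomial (V → Option A) F} (hf : f ∈ Earlier p G) {R : ℕ}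
    (hR : Fintype.card A ^ Fintype.card V ≤ R * (univ.filter fun x : V → A =>
      ∃ u, MvPolynomial.coeff u f ≠ 0 ∧ u.support = (scopes V k).image (fun K => restr K x) ∧ ∀ β, u β ≤ D).card) :
    2 ^ Fintype.card V ≤ (2 * R * (∑ j ∈ range G, (m j + 1)) ^ 2) ^ 10 := by
  set s : ℕ := ∑ j ∈ range G, (m j + 1) with hs
  set N := (scopes V k).card with hN
  have hNn : Fintype.card V ≤ N := by
    rw [hN, card_scopes]
    exact le_choose (by omega) hkn
  set a : ℕ := (N + 99) / 100 with ha
  set w0 : ℕ := (49 * N + 99) / 100 with hw0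
  set L := AlgebraicClosure F with hL
  set t' : Finset V → V → A → Lˣ := fun K i α => ju F L (t K i α) with ht'
  have hgen : Generic D (scopes V k) t' := ht.map _ ju_injective
  set W : ((V → Option A) →₀ ℕ) → Lˣ := wL L (gu t) with hW
  have hWm : Mult W := wL_mult
  have hwt : ∀ x u, Good D (scopes V k) x u → W u = wp (scopes V k) t' x (ex x u) := fun x u hu => wL_wp t hu
  choose l T b μ hstr using fun j => circuit_str (L := L) (c := gu t) hc j
  have hdesc : ∀ x, ∀ j < G, ∀ u, Occ p j u → Good D (scopes V k) x u → N - a < sz u →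
      (∃ u', Good D (scopes V k) x u' ∧ a ≤ sz u' ∧ sz u' ≤ N - a ∧ ∃ j < G, W u' = l j) ∨
      ∃ j < G, ∃ d, Good D (scopes V k) x (∑ i, d i) ∧ N - a < sz (∑ i, d i) ∧ (∀ i, sz (d i) < a) ∧
        Data W (T j) (b j) (μ j) d := by
    intro x
    exact descent (W := W) (Good := Good D (scopes V k) x) (fun u v h hv => hv.mono h) (N := N) (G := G) (m := m)
      (l := l) (a := a) (by omega) (by omega) (Q := Occ p) (fun j hj u h => (hstr j hj).1 u h)
      (Data := fun j d => Data W (T j) (b j) (μ j) d) (fun j hj => (hstr j hj).2)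
  -- the largest size of a small set
  set q := Fintype.card A ^ Fintype.card V with hq
  set M := Nat.findGreatest (fun M => M ^ 10 * 2 ^ Fintype.card V ≤ q ^ 10) q with hM
  have hM1 : M ^ 10 * 2 ^ Fintype.card V ≤ q ^ 10 := by
    have h0 : (fun M => M ^ 10 * 2 ^ Fintype.card V ≤ q ^ 10) 0 := by simp
    exact Nat.findGreatest_spec (P := fun M => M ^ 10 * 2 ^ Fintype.card V ≤ q ^ 10) (Nat.zero_le q) h0
  have hM2 : ∀ X : Finset (V → A), EG.Small X → X.card ≤ M := by
    intro X hX
    refine Nat.le_findGreatest ?_ hX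
    have h1 := Finset.card_le_univ X
    rwa [Fintype.card_fun] at h1
  set cutset : ℕ → Finset (V → A) := fun j => univ.filter fun x =>
    ∃ u, Good D (scopes V k) x u ∧ a ≤ sz u ∧ sz u ≤ N - a ∧ wp (scopes V k) t' x (ex x u) = l j with hcut
  set walkset : ℕ → Finset (V → A) := fun j => univ.filter fun x =>
    ∃ d, Good D (scopes V k) x (∑ i, d i) ∧ N - a < sz (∑ i, d i) ∧ (∀ i, sz (d i) < a) ∧
        Data W (T j) (b j) (μ j) d with hwalk
  have hcover : (univ.filter fun x : V → A => ∃ u, MvPolynomial.coeff u f ≠ 0 ∧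
      u.support = (scopes V k).image (fun K => restr K x) ∧ ∀ β, u β ≤ D) ⊆
      (range G).biUnion cutset ∪ (range G).biUnion walkset := by
    intro x hx
    obtain ⟨_, u, hu1, hu2, hu3⟩ := mem_filter.1 hx
    have hgood : Good D (scopes V k) x u := by
      refine ⟨fun β hβ => ?_, hu3⟩
      have h1 := Finsupp.mem_support_iff.2 hβ
      rw [hu2] at h1
      obtain ⟨K, hK, h2⟩ := mem_image.1 h1
      exact ⟨K, hK, h2⟩
    have hsz : sz u = N := by
      unfold sz
      rw [hu2, Finset.card_image_of_injective _ (restr_injective x)]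
    have h1 := part_of_earlier hf hu1
    rcases h1 with h1 | ⟨j, hj, h1⟩
    · omega
    · rw [mem_union]
      rcases hdesc x j hj u h1 hgood (by omega) with ⟨u', h2, h3, h4, i, hi, h5⟩ | ⟨i, hi, d, h2, h3, h4, h5⟩
      · refine Or.inl (mem_biUnion.2 ⟨i, mem_range.2 hi, mem_filter.2 ⟨mem_univ _, u', h2, h3, h4, ?_⟩⟩)
        rw [← hwt x u' h2, h5]
      · exact Or.inr (mem_biUnion.2 ⟨i, mem_range.2 hi, mem_filter.2 ⟨mem_univ _, d, h2, h3, h4, h5⟩⟩)
  have h1 : ((range G).biUnion cutset).card ≤ (G + ∑ j ∈ range G, m j * m j) * M := by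
    refine Finset.card_biUnion_le.trans ?_
    refine (Finset.sum_le_card_nsmul _ _ M fun j _ => hM2 _ (small_cut hWEB hA hk hkn.le hgen (a := a) (by omega)
      (by omega) (by omega) (l j) fun x hx => (mem_filter.1 hx).2)).trans ?_
    rw [smul_eq_mul, card_range]
    exact Nat.mul_le_mul_right _ (Nat.le_add_right _ _)
  have h2 : ((range G).biUnion walkset).card ≤ (G + ∑ j ∈ range G, m j * m j) * M := by
    refine Finset.card_biUnion_le.trans ?_
    have h3 : ∀ j ∈ range G, (walkset j).card ≤ (m j * m j + 1) * M := by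
      intro j _
      rcases (walkset j).eq_empty_or_nonempty with h0 | ⟨y, hy⟩
      · rw [h0, Finset.card_empty]
        exact Nat.zero_le _
      obtain ⟨_, dy, hy1, hy2, hy3, hy4⟩ := mem_filter.1 hy
      set rel : Lˣ × Lˣ → Finset (V → A) := fun h => univ.filter fun x => ∃ u u', Good D (scopes V k) x u ∧
        Good D (scopes V k) y u' ∧ w0 ≤ sz u ∧ w0 + sz u ≤ N ∧
          h.1 * wp (scopes V k) t' y (ex y u') = h.2 * wp (scopes V k) t' x (ex x u) with hrel
      have h4 : walkset j ⊆ (factors (T j) (b j)).biUnion rel := by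
        intro x hx
        obtain ⟨_, dx, hx1, hx2, hx3, hx4⟩ := mem_filter.1 hx
        obtain ⟨h, hh, S, S', h5, h6, h7⟩ := traverse hWm hx3 hx4 hy4 (w0 := w0) (by omega) (by omega)
        have hg : Good D (scopes V k) x (∑ z ∈ S, dx z) := hx1.mono (sum_le_of_subset (Finset.subset_univ S) dx)
        have hg' : Good D (scopes V k) y (∑ z ∈ S', dy z) := hy1.mono (sum_le_of_subset (Finset.subset_univ S') dy)
        rw [hwt x _ hg, hwt y _ hg'] at h7
        exact mem_biUnion.2 ⟨h, hh, mem_filter.2 ⟨mem_univ _, _, _, hg, hg', h5, by omega, h7⟩⟩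
      refine (Finset.card_le_card h4).trans (Finset.card_biUnion_le.trans ?_)
      refine (Finset.sum_le_card_nsmul _ _ M fun h _ => hM2 _ (small_rel hWHB hA hk hkn.le hgen (w0 := w0)
        (by omega) (by omega) y h.1 h.2 fun x hx => (mem_filter.1 hx).2)).trans ?_
      rw [smul_eq_mul]
      refine Nat.mul_le_mul_right _ ((card_factors _ _).trans ?_)
      rw [Fintype.card_fin]
    refine (Finset.sum_le_sum h3).trans ?_
    rw [← Finset.sum_mul]
    refine Nat.mul_le_mul_right _ ?_
    rw [Finset.sum_add_distrib, Finset.sum_const, card_range, smul_eq_mul, mul_one, add_comm]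
  have h3 : q ≤ 2 * R * s ^ 2 * M := by
    refine hR.trans ?_
    calc R * (univ.filter fun x : V → A => ∃ u, MvPolynomial.coeff u f ≠ 0 ∧
          u.support = (scopes V k).image (fun K => restr K x) ∧ ∀ β, u β ≤ D).card ≤
        R * ((G + ∑ j ∈ range G, m j * m j) * M + (G + ∑ j ∈ range G, m j * m j) * M) :=
          Nat.mul_le_mul_left _ ((Finset.card_le_card hcover).trans ((Finset.card_union_le _ _).trans
            (Nat.add_le_add h1 h2)))
      _ = 2 * R * (G + ∑ j ∈ range G, m j * m j) * M := by ring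
      _ ≤ 2 * R * s ^ 2 * M := Nat.mul_le_mul_right _ (Nat.mul_le_mul_left _ (sum_sq2 G m))
  have hqpos : 0 < q := pow_pos (by omega) _
  have hqpos : 0 < q ^ 10 := pow_pos hqpos 10
  refine Nat.le_of_mul_le_mul_left ?_ hqpos
  calc q ^ 10 * 2 ^ Fintype.card V ≤ (2 * R * s ^ 2 * M) ^ 10 * 2 ^ Fintype.card V :=
        Nat.mul_le_mul_right _ (Nat.pow_le_pow_left h3 10)
    _ = (2 * R * s ^ 2) ^ 10 * (M ^ 10 * 2 ^ Fintype.card V) := by ring
    _ ≤ (2 * R * s ^ 2) ^ 10 * q ^ 10 := Nat.mul_le_mul_left _ hM1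
    _ = q ^ 10 * (2 * R * s ^ 2) ^ 10 := mul_comm _ _

end

end Pool.Agent.Helper1x.EH
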