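import Pool.Agent.Helper1x.EH.LowS

/-!
# The lower bound for satisfiability with the exponent for all alphabets
-/

set_option autoImplicit false

namespace Pool.Agent.Helper1x.EH

open Finset Pool.Agent.HS38 Pool.Agent.HS38.GT Pool.Agent.Helper1x.EB
open Pool.Agent.Helper1x.EC (Earlier ju ju_injective)
open Pool.Agent.Helper1x.EG (gu gu_restr scope_restr restr_injective t_COMB t_COMB2
  le_choose sum_sq2 card_scopes)
open Pool.Agent.Helper1x.EP (mwt)

section ball

variable {V A : Type} [Fintype V] [DecidableEq V] [Fintype A] [DecidableEq A]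

theorem ball_sumQ (ν : ℕ) (z : V → A) :
    ∑ x : V → A, (ν + 1) ^ (univ.filter fun i => x i = z i).card =
      (Fintype.card A + ν) ^ Fintype.card V := by
  have h1 : ∀ x : V → A, (ν + 1) ^ (univ.filter fun i => x i = z i).card =
      ∏ i, (if x i = z i then ν + 1 else 1) := by
    intro x
    rw [Finset.prod_ite, Finset.prod_const, Finset.prod_const_one, mul_one]
  rw [Finset.sum_congr rfl fun x _ => h1 x]
  have h2 := Finset.prod_univ_sum (fun _ : V => (univ : Finset A))
    (fun i α => if α = z i then ν + 1 else 1)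
  rw [Fintype.piFinset_univ] at h2
  rw [← h2]
  have h3 : ∀ i : V, ∑ α : A, (if α = z i then ν + 1 else 1) = Fintype.card A + ν := by
    intro i
    have h4 : ∀ α : A, (if α = z i then ν + 1 else 1) = 1 + if α = z i then ν else 0 := by
      intro α
      split_ifs
      · exact add_comm _ _
      · rfl
    rw [Finset.sum_congr rfl fun α _ => h4 α, Finset.sum_add_distrib, Finset.sum_ite_eq']
    simp
  rw [Finset.prod_congr rfl fun i _ => h3 i, Finset.prod_const, Finset.card_univ]

theorem ball_numQ {p : ℕ} (hp : 1 ≤ p) : (3 * p) ^ 10 * (2 * p) ^ 3 * (p + 1) ≤ (p + 1) ^ 10 * (2 * p) ^ 10 := by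
  have h1 : 59049 * p ^ 3 ≤ 128 * (p + 1) ^ 9 := by
    rcases Nat.eq_or_lt_of_le hp with h | h
    · rw [← h]
      norm_num
    · have h2 : 3 ^ 6 ≤ (p + 1) ^ 6 := Nat.pow_le_pow_left (by omega) 6
      have h3 : p ^ 3 ≤ (p + 1) ^ 3 := Nat.pow_le_pow_left (by omega) 3
      calc 59049 * p ^ 3 ≤ 128 * (3 ^ 6 * p ^ 3) := by
            have : 128 * (3 ^ 6 * p ^ 3) = 93312 * p ^ 3 := by ring
            omega
        _ ≤ 128 * ((p + 1) ^ 6 * (p + 1) ^ 3) := Nat.mul_le_mul_left _ (Nat.mul_le_mul h2 h3)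
        _ = 128 * (p + 1) ^ 9 := by ring
  calc (3 * p) ^ 10 * (2 * p) ^ 3 * (p + 1) = 59049 * p ^ 3 * (8 * p ^ 10 * (p + 1)) := by ring
    _ ≤ 128 * (p + 1) ^ 9 * (8 * p ^ 10 * (p + 1)) := Nat.mul_le_mul_right _ h1
    _ = (p + 1) ^ 10 * (2 * p) ^ 10 := by ring

/-- a small set of assignments -/
def SmallQ (X : Finset (V → A)) : Prop :=
  X.card ^ 10 * Fintype.card A ^ Fintype.card V ≤ (Fintype.card A ^ Fintype.card V) ^ 10

omit [DecidableEq V] [DecidableEq A] in
theorem SmallQ.mono {X Y : Finset (V → A)} (hY : SmallQ Y) (h : X ⊆ Y) : SmallQ X :=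
  (Nat.mul_le_mul_right _ (Nat.pow_le_pow_left (Finset.card_le_card h) 10)).trans hY

theorem ballQ (hq : 2 ≤ Fintype.card A) (z : V → A) :
    SmallQ (univ.filter fun x : V → A => 10 * (univ.filter fun i => x i ≠ z i).card ≤ 3 * Fintype.card V) := by
  set n := Fintype.card V with hn
  obtain ⟨p, hp⟩ : ∃ p, Fintype.card A = p + 1 := ⟨Fintype.card A - 1, by omega⟩
  have hp1 : 1 ≤ p := by omega
  obtain ⟨ν, hν⟩ : ∃ ν, 2 * p = ν + 1 := ⟨2 * p - 1, by omega⟩
  set B := (univ.filter fun x : V → A => 10 * (univ.filter fun i => x i ≠ z i).card ≤ 3 * n) with hB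
  have hbs := ball_sumQ ν z
  rw [show Fintype.card A + ν = 3 * p by omega, ← hν, ← hn] at hbs
  have h1 : B.card * (2 * p) ^ (n - 3 * n / 10) ≤ (3 * p) ^ n := by
    rw [← hbs]
    calc B.card * (2 * p) ^ (n - 3 * n / 10) = ∑ x ∈ B, (2 * p) ^ (n - 3 * n / 10) := by
          rw [Finset.sum_const, smul_eq_mul]
      _ ≤ ∑ x ∈ B, (2 * p) ^ (univ.filter fun i => x i = z i).card := by
          refine Finset.sum_le_sum fun x hx => Nat.pow_le_pow_right (by omega) ?_
          have h2 := (Finset.mem_filter.1 hx).2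
          have h3 := Finset.card_filter_add_card_filter_not (s := (univ : Finset V))
            (fun i => x i = z i)
          rw [Finset.card_univ] at h3
          have h4 : (univ.filter fun i => x i ≠ z i).card = (univ.filter fun i => ¬ x i = z i).card :=
            rfl
          omega
      _ ≤ ∑ x : V → A, (2 * p) ^ (univ.filter fun i => x i = z i).card :=
          Finset.sum_le_sum_of_subset (Finset.subset_univ _)
  have h2 : B.card ^ 10 * (2 * p) ^ (10 * n) ≤ ((3 * p) ^ 10 * (2 * p) ^ 3) ^ n := by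
    have h3 := Nat.pow_le_pow_left h1 10
    have h4 : B.card ^ 10 * (2 * p) ^ (10 * n) ≤ (B.card * (2 * p) ^ (n - 3 * n / 10)) ^ 10 * (2 * p) ^ (3 * n) := by
      rw [mul_pow B.card, mul_assoc, ← pow_mul, ← pow_add]
      exact Nat.mul_le_mul_left _ (Nat.pow_le_pow_right (by omega) (by omega))
    refine h4.trans ((Nat.mul_le_mul_right _ h3).trans (le_of_eq ?_))
    rw [mul_pow (_ ^ 10), ← pow_mul, ← pow_mul, ← pow_mul, mul_comm n 10]
  have h3 := Nat.pow_le_pow_left (ball_numQ hp1) n
  unfold SmallQ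
  rw [hp, ← hn]
  have h4 : B.card ^ 10 * (p + 1) ^ n * (2 * p) ^ (10 * n) ≤ ((p + 1) ^ n) ^ 10 * (2 * p) ^ (10 * n) := by
    calc B.card ^ 10 * (p + 1) ^ n * (2 * p) ^ (10 * n) = B.card ^ 10 * (2 * p) ^ (10 * n) * (p + 1) ^ n := by
          rw [mul_assoc, mul_assoc, mul_comm ((p + 1) ^ n)]
      _ ≤ ((3 * p) ^ 10 * (2 * p) ^ 3) ^ n * (p + 1) ^ n := Nat.mul_le_mul_right _ h2
      _ = ((3 * p) ^ 10 * (2 * p) ^ 3 * (p + 1)) ^ n := by rw [mul_pow _ (p + 1)]
      _ ≤ ((p + 1) ^ 10 * (2 * p) ^ 10) ^ n := h3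
      _ = ((p + 1) ^ n) ^ 10 * (2 * p) ^ (10 * n) := by
          rw [mul_pow, ← pow_mul, ← pow_mul, ← pow_mul, mul_comm 10 n, mul_comm n 10]
  exact Nat.le_of_mul_le_mul_right h4 (pow_pos (by omega) _)

omit [DecidableEq A] in
theorem small_agreeQ (hA : 2 ≤ Fintype.card A) {z : V → A} {C : Finset V} (hC : Fintype.card V ≤ 10 * C.card)
    {X : Finset (V → A)} (h : ∀ x ∈ X, ∀ i ∈ C, x i = z i) : SmallQ X := by
  classical
  have h1 : X.card ≤ Fintype.card A ^ (Fintype.card V - C.card) := by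
    have h2 : X.card ≤ (univ : Finset ({i // i ∉ C} → A)).card := by
      refine Finset.card_le_card_of_injOn (fun x i => x i.1) (fun x _ => mem_univ _) ?_
      intro x hx x' hx' hxx
      funext i
      by_cases hi : i ∈ C
      · rw [h x hx i hi, h x' hx' i hi]
      · exact congrFun hxx ⟨i, hi⟩
    rwa [Finset.card_univ, Fintype.card_fun, Fintype.card_subtype, Finset.filter_notMem_eq_sdiff,
      ← Finset.compl_eq_univ_sdiff, Finset.card_compl] at h2
  unfold SmallQ
  have h3 : C.card ≤ Fintype.card V := Finset.card_le_univ C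
  calc X.card ^ 10 * Fintype.card A ^ Fintype.card V ≤
      (Fintype.card A ^ (Fintype.card V - C.card)) ^ 10 * Fintype.card A ^ (10 * C.card) :=
        Nat.mul_le_mul (Nat.pow_le_pow_left h1 10) (Nat.pow_le_pow_right (by omega) hC)
    _ = (Fintype.card A ^ Fintype.card V) ^ 10 := by
        rw [← pow_mul, ← pow_mul, ← pow_add]
        congr 1
        omega

theorem small_ballQ (hA : 2 ≤ Fintype.card A) {z : V → A} {X : Finset (V → A)}
    (h : ∀ x ∈ X, 10 * (univ.filter fun i => x i ≠ z i).card ≤ 3 * Fintype.card V) : SmallQ X :=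
  SmallQ.mono (ballQ hA z) fun x hx => mem_filter.2 ⟨mem_univ _, h x hx⟩

end ball

section

variable {F V A : Type} [Field F] [Fintype V] [DecidableEq V] [Fintype A] [DecidableEq A]
variable {D k : ℕ} {t : Finset V → V → A → Fˣ}

/-- the assignments with a cut of a given weight -/
theorem small_cutQ (hWEB : S_WEB) (hA : 2 ≤ Fintype.card A) (hk : 2 ≤ k) (hkn : k ≤ Fintype.card V)
    (ht : Generic D (scopes V k) t) {a : ℕ} (ha : 1 ≤ a) (ha2 : 2 * a ≤ (scopes V k).card)
    (ha3 : (scopes V k).card ≤ 100 * a) (h : Fˣ) {X : Finset (V → A)}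
    (hX : ∀ x ∈ X, ∃ u, Good D (scopes V k) x u ∧ a ≤ sz u ∧ sz u ≤ (scopes V k).card - a ∧
      wp (scopes V k) t x (ex x u) = h) : SmallQ X := by
  rcases X.eq_empty_or_nonempty with h0 | ⟨x1, hx1⟩
  · unfold SmallQ
    rw [h0, Finset.card_empty, zero_pow (by norm_num), zero_mul]
    exact Nat.zero_le _
  · obtain ⟨u1, h1, h2, h3, h4⟩ := hX x1 hx1
    rw [sz_eq h1] at h2 h3
    refine small_agreeQ hA (z := x1) (C := GT.cut (scopes V k) (sc (scopes V k) x1 u1)) ?_ ?_
    · have h5 := t_COMB V k hk hkn (sc (scopes V k) x1 u1) a sc_subset h2 (by omega)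
      have h6 : 0 < (scopes V k).card := by omega
      have h7 : (scopes V k).card * Fintype.card V ^ 2 ≤
          (scopes V k).card * (10 * (GT.cut (scopes V k) (sc (scopes V k) x1 u1)).card) ^ 2 := by
        calc (scopes V k).card * Fintype.card V ^ 2 ≤ 100 * a * Fintype.card V ^ 2 := Nat.mul_le_mul_right _ ha3
          _ = 100 * (a * Fintype.card V ^ 2) := by ring
          _ ≤ 100 * ((scopes V k).card * (GT.cut (scopes V k) (sc (scopes V k) x1 u1)).card ^ 2) :=
            Nat.mul_le_mul_left _ h5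
          _ = _ := by ring
      exact (Nat.pow_le_pow_iff_left two_ne_zero).1 (Nat.le_of_mul_le_mul_left h7 h6)
    · intro x hx i hi
      obtain ⟨u, h5, h6, h7, h8⟩ := hX x hx
      by_contra hne
      obtain ⟨K, hK, hiK, K', hK', hiK', hKK⟩ := cut_ne hi
      exact hKK (hWEB F V A D (scopes V k) t ht x1 x (ex x1 u1) (ex x u) (fun K _ => h1.2 _) (fun K _ => h5.2 _)
        (h4.trans h8.symm) i (Ne.symm hne) K hK hiK K' hK' hiK')

/-- the assignments with a relative cut -/
theorem small_relQ (hWHB : S_WHB) (hA : 2 ≤ Fintype.card A) (hk : 2 ≤ k) (hkn : k ≤ Fintype.card V)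
    (ht : Generic D (scopes V k) t) {w0 : ℕ} (hw : 49 * (scopes V k).card ≤ 100 * w0) (hN : 0 < (scopes V k).card)
    (y : V → A) (b b' : Fˣ) {X : Finset (V → A)}
    (hX : ∀ x ∈ X, ∃ u u', Good D (scopes V k) x u ∧ Good D (scopes V k) y u' ∧ w0 ≤ sz u ∧
      w0 + sz u ≤ (scopes V k).card ∧
      b * wp (scopes V k) t y (ex y u') = b' * wp (scopes V k) t x (ex x u)) : SmallQ X := by
  rcases X.eq_empty_or_nonempty with h0 | ⟨x1, hx1⟩
  · unfold SmallQ
    rw [h0, Finset.card_empty, zero_pow (by norm_num), zero_mul]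
    exact Nat.zero_le _
  · obtain ⟨u1, u1', h1, h2, h3, h4, h5⟩ := hX x1 hx1
    obtain ⟨z, hz⟩ := hWHB F V A D (scopes V k) t ht y x1 (ex x1 u1) (ex y u1') (fun K _ => h1.2 _) fun K _ => h2.2 _
    refine small_ballQ hA (z := z) fun x hx => ?_
    obtain ⟨u, u', h6, h7, h8, h9, h10⟩ := hX x hx
    have h11 := hz x (ex x u) (ex y u') (fun K _ => h6.2 _) (fun K _ => h7.2 _) (by
      have h12 : b' * b * (wp (scopes V k) t x (ex x u) * wp (scopes V k) t y (ex y u1')) =
          b' * b * (wp (scopes V k) t x1 (ex x1 u1) * wp (scopes V k) t y (ex y u')) := by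
        calc b' * b * (wp (scopes V k) t x (ex x u) * wp (scopes V k) t y (ex y u1'))
            = (b' * wp (scopes V k) t x (ex x u)) * (b * wp (scopes V k) t y (ex y u1')) := by
              rw [mul_mul_mul_comm]
          _ = (b * wp (scopes V k) t y (ex y u')) * (b' * wp (scopes V k) t x1 (ex x1 u1)) := by rw [h10, h5]
          _ = (b' * wp (scopes V k) t x1 (ex x1 u1)) * (b * wp (scopes V k) t y (ex y u')) := mul_comm _ _
          _ = b' * b * (wp (scopes V k) t x1 (ex x1 u1) * wp (scopes V k) t y (ex y u')) := by rw [mul_mul_mul_comm]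
      exact mul_left_cancel h12)
    rw [sz_eq h6] at h8 h9
    have h12 := t_COMB V k hk hkn (sc (scopes V k) x u) w0 sc_subset h8 h9
    have h13 : (scopes V k).card * (7 * Fintype.card V) ^ 2 ≤
        (scopes V k).card * (10 * (GT.cut (scopes V k) (sc (scopes V k) x u)).card) ^ 2 := by
      calc (scopes V k).card * (7 * Fintype.card V) ^ 2 = 49 * (scopes V k).card * Fintype.card V ^ 2 := by ring
        _ ≤ 100 * w0 * Fintype.card V ^ 2 := Nat.mul_le_mul_right _ hw
        _ = 100 * (w0 * Fintype.card V ^ 2) := by ring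
        _ ≤ 100 * ((scopes V k).card * (GT.cut (scopes V k) (sc (scopes V k) x u)).card ^ 2) :=
          Nat.mul_le_mul_left _ h12
        _ = _ := by ring
    have h14 := (Nat.pow_le_pow_iff_left two_ne_zero).1 (Nat.le_of_mul_le_mul_left h13 hN)
    have h15 : (univ.filter fun i => x i ≠ z i).card ≤ (GT.cut (scopes V k) (sc (scopes V k) x u))ᶜ.card := by
      refine Finset.card_le_card fun i hi => ?_
      rw [Finset.mem_compl]
      intro h16
      exact (mem_filter.1 hi).2 (h11 i (cut_ne h16))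
    rw [Finset.card_compl] at h15
    omega

open Classical in
/-- The lower bound. -/
theorem lowerSG (hWEB : S_WEB) (hWHB : S_WHB) (hn : 200 ≤ Fintype.card V) (hA : 2 ≤ Fintype.card A) (hk : 2 ≤ k)
    (hkn : k < Fintype.card V) (ht : Generic D (scopes V k) t) {G : ℕ} {p : ℕ → MvPolynomial (V → Option A) F}
    {m : ℕ → ℕ} (hc : Circuit (gauge t) G p m) {f : MvPolynomial (V → Option A) F} (hf : f ∈ Earlier p G) {R : ℕ}
    (hR : Fintype.card A ^ Fintype.card V ≤ R * (univ.filter fun x : V → A =>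
      ∃ u, MvPolynomial.coeff u f ≠ 0 ∧ u.support = (scopes V k).image (fun K => restr K x) ∧ ∀ β, u β ≤ D).card) :
    Fintype.card A ^ Fintype.card V ≤ (2 * R * (∑ j ∈ range G, (m j + 1)) ^ 2) ^ 10 := by
  set s : ℕ := ∑ j ∈ range G, (m j + 1) with hs
  set N := (scopes V k).card with hN
  have hNn : Fintype.card V ≤ N := by
    rw [hN, card_scopes]
    exact le_choose (by omega) hkn
  set a : ℕ := (N + 99) / 100 with ha
  set w0 : ℕ := (49 * N + 99) / 100 with hw0
  set L := AlgebraicClosure F with hL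
  set t' : Finset V → V → A → Lˣ := fun K i α => ju F L (t K i α) with ht'
  have hgen : Generic D (scopes V k) t' := ht.map _ ju_injective
  set W : ((V → Option A) →₀ ℕ) → Lˣ := wL L (gu t) with hW
  have hWm : Mult W := wL_mult
  have hwt : ∀ x u, Good D (scopes V k) x u → W u = wp (scopes V k) t' x (ex x u) := fun x u hu => wL_wp t hu
  choose l T b μ hstr using fun j => circuit_str (L := L) (c := gu t) hc j
  have hdesc : ∀ x, ∀ j < G, ∀ u, Occ p j u → Good D (scopes V k) x u → N - a < sz u →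
      (∃ u', Good D (scopes V k) x u' ∧ a ≤ sz u' ∧ sz u' ≤ N - a ∧ ∃ j < G, W u' = l j) ∨
      ∃ j < G, ∃ d, Good D (scopes V k) x (∑ i, d i) ∧ N - a < sz (∑ i, d i) ∧ (∀ i, sz (d i) < a) ∧
        Data W (T j) (b j) (μ j) d := by
    intro x
    exact descent (W := W) (Good := Good D (scopes V k) x) (fun u v h hv => hv.mono h) (N := N) (G := G) (m := m)
      (l := l) (a := a) (by omega) (by omega) (Q := Occ p) (fun j hj u h => (hstr j hj).1 u h)
      (Data := fun j d => Data W (T j) (b j) (μ j) d) (fun j hj => (hstr j hj).2)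
  -- the largest size of a small set
  set q := Fintype.card A ^ Fintype.card V with hq
  set M := Nat.findGreatest (fun M => M ^ 10 * q ≤ q ^ 10) q with hM
  have hM1 : M ^ 10 * q ≤ q ^ 10 := by
    have h0 : (fun M => M ^ 10 * q ≤ q ^ 10) 0 := by simp
    exact Nat.findGreatest_spec (P := fun M => M ^ 10 * q ≤ q ^ 10) (Nat.zero_le q) h0
  have hM2 : ∀ X : Finset (V → A), SmallQ X → X.card ≤ M := by
    intro X hX
    refine Nat.le_findGreatest ?_ hX
    have h1 := Finset.card_le_univ X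
    rwa [Fintype.card_fun] at h1
  set cutset : ℕ → Finset (V → A) := fun j => univ.filter fun x =>
    ∃ u, Good D (scopes V k) x u ∧ a ≤ sz u ∧ sz u ≤ N - a ∧ wp (scopes V k) t' x (ex x u) = l j with hcut
  set walkset : ℕ → Finset (V → A) := fun j => univ.filter fun x =>
    ∃ d, Good D (scopes V k) x (∑ i, d i) ∧ N - a < sz (∑ i, d i) ∧ (∀ i, sz (d i) < a) ∧
        Data W (T j) (b j) (μ j) d with hwalk
  have hcover : (univ.filter fun x : V → A => ∃ u, MvPolynomial.coeff u f ≠ 0 ∧
      u.support = (scopes V k).image (fun K => restr K x) ∧ ∀ β, u β ≤ D) ⊆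
      (range G).biUnion cutset ∪ (range G).biUnion walkset := by
    intro x hx
    obtain ⟨_, u, hu1, hu2, hu3⟩ := mem_filter.1 hx
    have hgood : Good D (scopes V k) x u := by
      refine ⟨fun β hβ => ?_, hu3⟩
      have h1 := Finsupp.mem_support_iff.2 hβ
      rw [hu2] at h1
      obtain ⟨K, hK, h2⟩ := mem_image.1 h1
      exact ⟨K, hK, h2⟩
    have hsz : sz u = N := by
      unfold sz
      rw [hu2, Finset.card_image_of_injective _ (restr_injective x)]
    have h1 := part_of_earlier hf hu1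
    rcases h1 with h1 | ⟨j, hj, h1⟩
    · omega
    · rw [mem_union]
      rcases hdesc x j hj u h1 hgood (by omega) with ⟨u', h2, h3, h4, i, hi, h5⟩ | ⟨i, hi, d, h2, h3, h4, h5⟩
      · refine Or.inl (mem_biUnion.2 ⟨i, mem_range.2 hi, mem_filter.2 ⟨mem_univ _, u', h2, h3, h4, ?_⟩⟩)
        rw [← hwt x u' h2, h5]
      · exact Or.inr (mem_biUnion.2 ⟨i, mem_range.2 hi, mem_filter.2 ⟨mem_univ _, d, h2, h3, h4, h5⟩⟩)
  have h1 : ((range G).biUnion cutset).card ≤ (G + ∑ j ∈ range G, m j * m j) * M := by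
    refine Finset.card_biUnion_le.trans ?_
    refine (Finset.sum_le_card_nsmul _ _ M fun j _ => hM2 _ (small_cutQ hWEB hA hk hkn.le hgen (a := a) (by omega)
      (by omega) (by omega) (l j) fun x hx => (mem_filter.1 hx).2)).trans ?_
    rw [smul_eq_mul, card_range]
    exact Nat.mul_le_mul_right _ (Nat.le_add_right _ _)
  have h2 : ((range G).biUnion walkset).card ≤ (G + ∑ j ∈ range G, m j * m j) * M := by
    refine Finset.card_biUnion_le.trans ?_
    have h3 : ∀ j ∈ range G, (walkset j).card ≤ (m j * m j + 1) * M := by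
      intro j _
      rcases (walkset j).eq_empty_or_nonempty with h0 | ⟨y, hy⟩
      · rw [h0, Finset.card_empty]
        exact Nat.zero_le _
      obtain ⟨_, dy, hy1, hy2, hy3, hy4⟩ := mem_filter.1 hy
      set rel : Lˣ × Lˣ → Finset (V → A) := fun h => univ.filter fun x => ∃ u u', Good D (scopes V k) x u ∧
        Good D (scopes V k) y u' ∧ w0 ≤ sz u ∧ w0 + sz u ≤ N ∧
          h.1 * wp (scopes V k) t' y (ex y u') = h.2 * wp (scopes V k) t' x (ex x u) with hrel
      have h4 : walkset j ⊆ (factors (T j) (b j)).biUnion rel := by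
        intro x hx
        obtain ⟨_, dx, hx1, hx2, hx3, hx4⟩ := mem_filter.1 hx
        obtain ⟨h, hh, S, S', h5, h6, h7⟩ := traverse hWm hx3 hx4 hy4 (w0 := w0) (by omega) (by omega)
        have hg : Good D (scopes V k) x (∑ z ∈ S, dx z) := hx1.mono (sum_le_of_subset (Finset.subset_univ S) dx)
        have hg' : Good D (scopes V k) y (∑ z ∈ S', dy z) := hy1.mono (sum_le_of_subset (Finset.subset_univ S') dy)
        rw [hwt x _ hg, hwt y _ hg'] at h7
        exact mem_biUnion.2 ⟨h, hh, mem_filter.2 ⟨mem_univ _, _, _, hg, hg', h5, by omega, h7⟩⟩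
      refine (Finset.card_le_card h4).trans (Finset.card_biUnion_le.trans ?_)
      refine (Finset.sum_le_card_nsmul _ _ M fun h _ => hM2 _ (small_relQ hWHB hA hk hkn.le hgen (w0 := w0)
        (by omega) (by omega) y h.1 h.2 fun x hx => (mem_filter.1 hx).2)).trans ?_
      rw [smul_eq_mul]
      refine Nat.mul_le_mul_right _ ((card_factors _ _).trans ?_)
      rw [Fintype.card_fin]
    refine (Finset.sum_le_sum h3).trans ?_
    rw [← Finset.sum_mul]
    refine Nat.mul_le_mul_right _ ?_
    rw [Finset.sum_add_distrib, Finset.sum_const, card_range, smul_eq_mul, mul_one, add_comm]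
  have h3 : q ≤ 2 * R * s ^ 2 * M := by
    refine hR.trans ?_
    calc R * (univ.filter fun x : V → A => ∃ u, MvPolynomial.coeff u f ≠ 0 ∧
          u.support = (scopes V k).image (fun K => restr K x) ∧ ∀ β, u β ≤ D).card ≤
        R * ((G + ∑ j ∈ range G, m j * m j) * M + (G + ∑ j ∈ range G, m j * m j) * M) :=
          Nat.mul_le_mul_left _ ((Finset.card_le_card hcover).trans ((Finset.card_union_le _ _).trans
            (Nat.add_le_add h1 h2)))
      _ = 2 * R * (G + ∑ j ∈ range G, m j * m j) * M := by ring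
      _ ≤ 2 * R * s ^ 2 * M := Nat.mul_le_mul_right _ (Nat.mul_le_mul_left _ (sum_sq2 G m))
  have hqpos : 0 < q := pow_pos (by omega) _
  have hqpos : 0 < q ^ 10 := pow_pos hqpos 10
  refine Nat.le_of_mul_le_mul_left ?_ hqpos
  calc q ^ 10 * q ≤ (2 * R * s ^ 2 * M) ^ 10 * q :=
        Nat.mul_le_mul_right _ (Nat.pow_le_pow_left h3 10)
    _ = (2 * R * s ^ 2) ^ 10 * (M ^ 10 * q) := by ring
    _ ≤ (2 * R * s ^ 2) ^ 10 * q ^ 10 := Nat.mul_le_mul_left _ hM1
    _ = q ^ 10 * (2 * R * s ^ 2) ^ 10 := mul_comm _ _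

end

end Pool.Agent.Helper1x.EH
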