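import Pool.Agent.Helper1x.EH.LowS

/-!
# The lower bound for satisfiability, circuits with small matrices
-/

set_option autoImplicit false

namespace Pool.Agent.Helper1x.EH

open Finset Pool.Agent.HS38 Pool.Agent.HS38.GT Pool.Agent.Helper1x.EB
open Pool.Agent.Helper1x.EC (Earlier ju ju_injective)
open Pool.Agent.Helper1x.EG (gu gu_restr scope_restr restr_injective t_COMB t_COMB2
  le_choose sum_sq2 card_scopes)
open Pool.Agent.Helper1x.EP (mwt)

theorem bern {m k : ℕ} (hk : 1 ≤ k) : (m + 1 - k) * (m + 1) ^ (k - 1) ≤ m ^ k := by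
  induction k, hk using Nat.le_induction with
  | base => simp
  | succ k hk ih =>
    obtain ⟨j, rfl⟩ : ∃ j, k = j + 1 := ⟨k - 1, by omega⟩
    rw [Nat.add_sub_cancel] at ih ⊢
    rcases Nat.lt_or_ge m (j + 1) with h | h
    · have h1 : m + 1 - (j + 1 + 1) = 0 := by omega
      rw [h1, zero_mul]
      exact Nat.zero_le _
    · obtain ⟨d, rfl⟩ : ∃ d, m = j + 1 + d := ⟨m - (j + 1), by omega⟩
      have h1 : j + 1 + d + 1 - (j + 1 + 1) = d := by omega
      have h2 : j + 1 + d + 1 - (j + 1) = d + 1 := by omega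
      rw [h2] at ih
      rw [h1]
      calc d * (j + 1 + d + 1) ^ (j + 1) = d * (j + 1 + d + 1) * (j + 1 + d + 1) ^ j := by ring
        _ ≤ (j + 1 + d) * (d + 1) * (j + 1 + d + 1) ^ j := by
            refine Nat.mul_le_mul_right _ ?_
            have h3 : (j + 1 + d) * (d + 1) = d * (j + 1 + d + 1) + (j + 1) := by ring
            omega
        _ = (j + 1 + d) * ((d + 1) * (j + 1 + d + 1) ^ j) := by ring
        _ ≤ (j + 1 + d) * (j + 1 + d) ^ (j + 1) := Nat.mul_le_mul_left _ ih
        _ = (j + 1 + d) ^ (j + 1 + 1) := by ring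

theorem choose_stepk {m k : ℕ} (hk : 1 ≤ k) : m.choose k * (m + 1) ^ k ≤ (m + 1).choose k * m ^ k := by
  have h1 : m.choose k * (m + 1) = (m + 1).choose k * (m + 1 - k) := Nat.choose_mul_succ_eq m k
  have h2 : (m + 1) ^ k = (m + 1) * (m + 1) ^ (k - 1) := by
    obtain ⟨j, rfl⟩ : ∃ j, k = j + 1 := ⟨k - 1, by omega⟩
    rw [Nat.add_sub_cancel]
    ring
  calc m.choose k * (m + 1) ^ k = m.choose k * (m + 1) * (m + 1) ^ (k - 1) := by rw [h2, mul_assoc]
    _ = (m + 1).choose k * ((m + 1 - k) * (m + 1) ^ (k - 1)) := by rw [h1, mul_assoc]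
    _ ≤ (m + 1).choose k * m ^ k := Nat.mul_le_mul_left _ (bern hk)

theorem choose_lek {m n k : ℕ} (hk : 1 ≤ k) (h : m ≤ n) :
    m.choose k * n ^ k ≤ n.choose k * m ^ k := by
  induction n, h using Nat.le_induction with
  | base => exact le_rfl
  | succ n hn ih =>
    rcases Nat.eq_zero_or_pos n with h0 | h0
    · have hm : m = 0 := by omega
      rw [hm, Nat.choose_eq_zero_of_lt (by omega : 0 < k), zero_mul]
      exact Nat.zero_le _
    · have h1 := choose_stepk (m := n) hk
      have h2 : m.choose k * (n + 1) ^ k * n ^ k ≤ (n + 1).choose k * m ^ k * n ^ k := by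
        calc m.choose k * (n + 1) ^ k * n ^ k = m.choose k * n ^ k * (n + 1) ^ k := by ring
          _ ≤ n.choose k * m ^ k * (n + 1) ^ k := Nat.mul_le_mul_right _ ih
          _ = n.choose k * (n + 1) ^ k * m ^ k := by ring
          _ ≤ (n + 1).choose k * n ^ k * m ^ k := Nat.mul_le_mul_right _ h1
          _ = (n + 1).choose k * m ^ k * n ^ k := by ring
      exact Nat.le_of_mul_le_mul_right h2 (by positivity)

/-- few scopes avoid a set of variables -/
theorem card_avoidk {V : Type} [Fintype V] [DecidableEq V] {k : ℕ} (hk : 1 ≤ k)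
    (Q : Finset (Finset V)) (D : Finset V) (hQ : Q ⊆ scopes V k) (h : ∀ i ∈ D, ∀ K ∈ Q, i ∉ K) :
    Q.card * Fintype.card V ^ k ≤ (scopes V k).card * (Fintype.card V - D.card) ^ k := by
  have h1 : Q ⊆ Dᶜ.powersetCard k := by
    intro K hK
    rw [Finset.mem_powersetCard]
    refine ⟨fun i hi => Finset.mem_compl.2 fun hD => h i hD K hK hi, ?_⟩
    exact (Finset.mem_powersetCard.1 (hQ hK)).2
  have h2 := Finset.card_le_card h1
  rw [Finset.card_powersetCard, Finset.card_compl] at h2
  rw [card_scopes]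
  exact (Nat.mul_le_mul_right _ h2).trans (choose_lek hk (Nat.sub_le _ _))

theorem combk {V : Type} [Fintype V] [DecidableEq V] {k : ℕ} (hk : 2 ≤ k) (hkn : k ≤ Fintype.card V)
    (P : Finset (Finset V)) (w : ℕ) (hP : P ⊆ scopes V k) (hw1 : w ≤ P.card) (hw2 : w + P.card ≤ (scopes V k).card) :
    w * Fintype.card V ^ k ≤ (scopes V k).card * (GT.cut (scopes V k) P).card ^ k := by
  set D := (GT.cut (scopes V k) P)ᶜ with hDdef
  have hcard : Fintype.card V - D.card = (GT.cut (scopes V k) P).card := by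
    rw [hDdef, Finset.card_compl]
    have := Finset.card_le_univ (GT.cut (scopes V k) P)
    omega
  have hA : (∀ i ∈ D, ∀ K ∈ scopes V k, i ∈ K → K ∈ P) → ((scopes V k).card - P.card) * Fintype.card V ^ k ≤
      (scopes V k).card * (GT.cut (scopes V k) P).card ^ k := by
    intro h
    rw [← Finset.card_sdiff_of_subset hP, ← hcard]
    refine card_avoidk (by omega) _ D Finset.sdiff_subset fun i hi K hK hiK => ?_
    rw [Finset.mem_sdiff] at hK
    exact hK.2 (h i hi K hK.1 hiK)
  have hB : (∀ i ∈ D, ∀ K ∈ P, i ∉ K) → P.card * Fintype.card V ^ k ≤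
      (scopes V k).card * (GT.cut (scopes V k) P).card ^ k := by
    intro h
    rw [← hcard]
    exact card_avoidk (by omega) P D hP h
  have hD : ∀ i ∈ D, (∀ K ∈ P, i ∉ K) ∨ ∀ K ∈ scopes V k, i ∈ K → K ∈ P := by
    intro i hi
    rw [hDdef, Finset.mem_compl, GT.cut, Finset.mem_filter] at hi
    by_contra hcon
    push Not at hcon
    obtain ⟨⟨K, hK, hiK⟩, K', hK', hiK', hn⟩ := hcon
    exact hi ⟨Finset.mem_univ _, ⟨K, hK, hiK⟩, K', Finset.mem_sdiff.2 ⟨hK', hn⟩, hiK'⟩
  by_cases hfull : ∀ i ∈ D, ∀ K ∈ scopes V k, i ∈ K → K ∈ P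
  · refine (Nat.mul_le_mul_right _ ?_).trans (hA hfull)
    omega
  by_cases hempty : ∀ i ∈ D, ∀ K ∈ P, i ∉ K
  · exact (Nat.mul_le_mul_right _ hw1).trans (hB hempty)
  exfalso
  push Not at hfull hempty
  obtain ⟨i, hi, K, hK, hiK, hKP⟩ := hfull
  obtain ⟨j, hj, K', hK', hjK'⟩ := hempty
  have h1 : ∀ K ∈ P, i ∉ K := by
    rcases hD i hi with h | h
    · exact h
    · exact absurd (h K hK hiK) hKP
  have h2 : ∀ K ∈ scopes V k, j ∈ K → K ∈ P := by
    rcases hD j hj with h | h
    · exact absurd hjK' (h K' hK')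
    · exact h
  obtain ⟨T, hT1, _, hT2⟩ := Finset.exists_subsuperset_card_eq (s := {i, j})
    (t := (univ : Finset V)) (n := k) (Finset.subset_univ _) ((Finset.card_le_two).trans hk)
    (by rw [Finset.card_univ]; exact hkn)
  have hT : T ∈ scopes V k := Finset.mem_powersetCard.2 ⟨Finset.subset_univ _, hT2⟩
  exact h1 T (h2 T hT (hT1 (by simp))) (hT1 (by simp))

section

variable {F V A : Type} [Field F] [Fintype V] [DecidableEq V] [Fintype A] [DecidableEq A]
variable {D k : ℕ} {t : Finset V → V → A → Fˣ}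

omit [DecidableEq A] in
theorem agree_card (hA : 1 ≤ Fintype.card A) {z : V → A} {C : Finset V} {c : ℕ} (hC : c ≤ C.card)
    {X : Finset (V → A)} (h : ∀ x ∈ X, ∀ i ∈ C, x i = z i) :
    X.card * Fintype.card A ^ c ≤ Fintype.card A ^ Fintype.card V := by
  classical
  have h1 : X.card ≤ Fintype.card A ^ (Fintype.card V - C.card) := by
    have h2 : X.card ≤ (univ : Finset ({i // i ∉ C} → A)).card := by
      refine Finset.card_le_card_of_injOn (fun x i => x i.1) (fun x _ => mem_univ _) ?_
      intro x hx x' hx' hxx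
      funext i
      by_cases hi : i ∈ C
      · rw [h x hx i hi, h x' hx' i hi]
      · exact congrFun hxx ⟨i, hi⟩
    rwa [Finset.card_univ, Fintype.card_fun, Fintype.card_subtype, Finset.filter_notMem_eq_sdiff,
      ← Finset.compl_eq_univ_sdiff, Finset.card_compl] at h2
  have h3 : C.card ≤ Fintype.card V := Finset.card_le_univ C
  calc X.card * Fintype.card A ^ c ≤
      Fintype.card A ^ (Fintype.card V - C.card) * Fintype.card A ^ C.card :=
        Nat.mul_le_mul h1 (Nat.pow_le_pow_right hA hC)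
    _ = Fintype.card A ^ Fintype.card V := by
        rw [← pow_add]
        congr 1
        omega

/-- the number of the assignments with a cut of a given weight -/
theorem cut_countS (hWEB : S_WEB) (hA : 2 ≤ Fintype.card A) (hk : 2 ≤ k) (hkn : k ≤ Fintype.card V)
    (ht : Generic D (scopes V k) t) {a c M : ℕ} (ha2 : 2 * a ≤ (scopes V k).card)
    (ha3 : (scopes V k).card ≤ (M + 1) * a) (hpos : 0 < (scopes V k).card) (hc : (M + 1) * c ^ k ≤ Fintype.card V ^ k)
    (h : Fˣ) {X : Finset (V → A)}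
    (hX : ∀ x ∈ X, ∃ u, Good D (scopes V k) x u ∧ a ≤ sz u ∧ sz u ≤ (scopes V k).card - a ∧
      wp (scopes V k) t x (ex x u) = h) :
    X.card * Fintype.card A ^ c ≤ Fintype.card A ^ Fintype.card V := by
  rcases X.eq_empty_or_nonempty with h0 | ⟨x1, hx1⟩
  · rw [h0, Finset.card_empty, zero_mul]
    exact Nat.zero_le _
  · obtain ⟨u1, h1, h2, h3, h4⟩ := hX x1 hx1
    rw [sz_eq h1] at h2 h3
    refine agree_card (by omega) (z := x1) (C := GT.cut (scopes V k) (sc (scopes V k) x1 u1)) ?_ ?_
    · have h5 := combk hk hkn (sc (scopes V k) x1 u1) a sc_subset h2 (by omega)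
      set C := GT.cut (scopes V k) (sc (scopes V k) x1 u1) with hC
      have h7 : (scopes V k).card * ((M + 1) * c ^ k) ≤ (scopes V k).card * ((M + 1) * C.card ^ k) := by
        calc (scopes V k).card * ((M + 1) * c ^ k) ≤ (scopes V k).card * Fintype.card V ^ k :=
              Nat.mul_le_mul_left _ hc
          _ ≤ (M + 1) * a * Fintype.card V ^ k := Nat.mul_le_mul_right _ ha3
          _ = (M + 1) * (a * Fintype.card V ^ k) := by ring
          _ ≤ (M + 1) * ((scopes V k).card * C.card ^ k) := Nat.mul_le_mul_left _ h5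
          _ = _ := by ring
      exact (Nat.pow_le_pow_iff_left (by omega)).1
        (Nat.le_of_mul_le_mul_left (Nat.le_of_mul_le_mul_left h7 hpos) (Nat.succ_pos M))
    · intro x hx i hi
      obtain ⟨u, h5, h6, h7, h8⟩ := hX x hx
      by_contra hne
      obtain ⟨K, hK, hiK, K', hK', hiK', hKK⟩ := cut_ne hi
      exact hKK (hWEB F V A D (scopes V k) t ht x1 x (ex x1 u1) (ex x u) (fun K _ => h1.2 _) (fun K _ => h5.2 _)
        (h4.trans h8.symm) i (Ne.symm hne) K hK hiK K' hK' hiK')

open Classical in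
/-- The lower bound for circuits with matrices of size at most `N`. -/
theorem lowerSQ (hWEB : S_WEB) {M c N : ℕ} (hA : 2 ≤ Fintype.card A) (hk : 2 ≤ k)
    (hkn : k < Fintype.card V) (hM : 3 ≤ M) (hNM : N + 1 ≤ M) (hMH : M ^ 2 ≤ (scopes V k).card)
    (hcM : (M + 1) * c ^ k ≤ Fintype.card V ^ k)
    (ht : Generic D (scopes V k) t) {G : ℕ} {p : ℕ → MvPolynomial (V → Option A) F}
    {m : ℕ → ℕ} (hc : Circuit (gauge t) G p m) (hm : ∀ j < G, m j ≤ N)
    {f : MvPolynomial (V → Option A) F} (hf : f ∈ Earlier p G) {R : ℕ}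
    (hR : Fintype.card A ^ Fintype.card V ≤ R * (univ.filter fun x : V → A =>
      ∃ u, MvPolynomial.coeff u f ≠ 0 ∧ u.support = (scopes V k).image (fun K => restr K x) ∧ ∀ β, u β ≤ D).card) :
    Fintype.card A ^ c ≤ R * G := by
  set H := (scopes V k).card with hH
  set a : ℕ := H / M with ha
  have hMa : M * a ≤ H := Nat.mul_div_le H M
  have hMa2 : H < M * (a + 1) := by
    have h1 := Nat.lt_mul_div_succ H (b := M) (by omega)
    exact h1
  have haM : M ≤ a := by
    rw [ha, Nat.le_div_iff_mul_le (by omega)]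
    calc M * M = M ^ 2 := by ring
      _ ≤ H := hMH
  have hH2 : H ≤ (M + 1) * a := by
    have h1 : M * (a + 1) = M * a + M := by ring
    have h2 : (M + 1) * a = M * a + a := by ring
    omega
  have h3a : 3 * a ≤ H := (Nat.mul_le_mul_right _ hM).trans hMa
  have hNa : (N + 1) * a ≤ H := (Nat.mul_le_mul_right _ hNM).trans hMa
  set L := AlgebraicClosure F with hL
  set t' : Finset V → V → A → Lˣ := fun K i α => ju F L (t K i α) with ht'
  have hgen : Generic D (scopes V k) t' := ht.map _ ju_injective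
  set W : ((V → Option A) →₀ ℕ) → Lˣ := wL L (gu t) with hW
  have hwt : ∀ x u, Good D (scopes V k) x u → W u = wp (scopes V k) t' x (ex x u) := fun x u hu => wL_wp t hu
  choose l T b μ hstr using fun j => circuit_str (L := L) (c := gu t) hc j
  have hdesc : ∀ x, ∀ j < G, ∀ u, Occ p j u → Good D (scopes V k) x u → H - a < sz u →
      (∃ u', Good D (scopes V k) x u' ∧ a ≤ sz u' ∧ sz u' ≤ H - a ∧ ∃ j < G, W u' = l j) ∨
      ∃ j < G, ∃ d, Good D (scopes V k) x (∑ i, d i) ∧ H - a < sz (∑ i, d i) ∧ (∀ i, sz (d i) < a) ∧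
        Data W (T j) (b j) (μ j) d := by
    intro x
    exact descent (W := W) (Good := Good D (scopes V k) x) (fun u v h hv => hv.mono h) (N := H) (G := G) (m := m)
      (l := l) (a := a) (by omega) (by omega) (Q := Occ p) (fun j hj u h => (hstr j hj).1 u h)
      (Data := fun j d => Data W (T j) (b j) (μ j) d) (fun j hj => (hstr j hj).2)
  set cutset : ℕ → Finset (V → A) := fun j => univ.filter fun x =>
    ∃ u, Good D (scopes V k) x u ∧ a ≤ sz u ∧ sz u ≤ H - a ∧ wp (scopes V k) t' x (ex x u) = l j with hcut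
  have hcover : (univ.filter fun x : V → A => ∃ u, MvPolynomial.coeff u f ≠ 0 ∧
      u.support = (scopes V k).image (fun K => restr K x) ∧ ∀ β, u β ≤ D) ⊆ (range G).biUnion cutset := by
    intro x hx
    obtain ⟨_, u, hu1, hu2, hu3⟩ := mem_filter.1 hx
    have hgood : Good D (scopes V k) x u := by
      refine ⟨fun β hβ => ?_, hu3⟩
      have h1 := Finsupp.mem_support_iff.2 hβ
      rw [hu2] at h1
      obtain ⟨K, hK, h2⟩ := mem_image.1 h1
      exact ⟨K, hK, h2⟩
    have hsz : sz u = H := by
      unfold sz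
      rw [hu2, Finset.card_image_of_injective _ (restr_injective x)]
    have h1 := part_of_earlier hf hu1
    rcases h1 with h1 | ⟨j, hj, h1⟩
    · omega
    · rcases hdesc x j hj u h1 hgood (by omega) with ⟨u', h2, h3, h4, i, hi, h5⟩ | ⟨i, hi, d, h2, h3, h4, h5⟩
      · refine mem_biUnion.2 ⟨i, mem_range.2 hi, mem_filter.2 ⟨mem_univ _, u', h2, h3, h4, ?_⟩⟩
        rw [← hwt x u' h2, h5]
      · exfalso
        have h6 : ∀ s : Finset (Fin (m i)), sz (∑ z ∈ s, d z) ≤ s.card * (a - 1) := by
          intro s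
          induction s using Finset.induction_on with
          | empty =>
            rw [Finset.sum_empty, sz_zero]
            exact Nat.zero_le _
          | insert z s hz ih =>
            rw [Finset.sum_insert hz, Finset.card_insert_of_notMem hz, add_mul, one_mul]
            have h7 := sz_add (d z) (∑ z ∈ s, d z)
            have h8 := h4 z
            omega
        have h7 := h6 univ
        rw [Finset.card_univ, Fintype.card_fin] at h7
        have h8 : m i * (a - 1) ≤ N * (a - 1) := Nat.mul_le_mul_right _ (hm i hi)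
        have h9 : N * (a - 1) ≤ N * a := Nat.mul_le_mul_left _ (by omega)
        have h10 : (N + 1) * a = N * a + a := by ring
        omega
  have hpos : 0 < Fintype.card A ^ Fintype.card V := pow_pos (by omega) _
  refine Nat.le_of_mul_le_mul_left ?_ hpos
  calc Fintype.card A ^ Fintype.card V * Fintype.card A ^ c ≤
        R * ((range G).biUnion cutset).card * Fintype.card A ^ c :=
        Nat.mul_le_mul_right _ (hR.trans (Nat.mul_le_mul_left _ (Finset.card_le_card hcover)))
    _ ≤ R * (∑ j ∈ range G, (cutset j).card) * Fintype.card A ^ c :=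
        Nat.mul_le_mul_right _ (Nat.mul_le_mul_left _ Finset.card_biUnion_le)
    _ = R * ∑ j ∈ range G, (cutset j).card * Fintype.card A ^ c := by rw [mul_assoc, Finset.sum_mul]
    _ ≤ R * ∑ j ∈ range G, Fintype.card A ^ Fintype.card V := Nat.mul_le_mul_left _ (Finset.sum_le_sum fun j _ =>
        cut_countS hWEB hA hk hkn.le hgen (a := a) (M := M) (by omega) hH2 (by omega) hcM (l j)
          fun x hx => (mem_filter.1 hx).2)
    _ = Fintype.card A ^ Fintype.card V * (R * G) := by
        rw [Finset.sum_const, card_range, smul_eq_mul]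
        ring

end

end Pool.Agent.Helper1x.EH
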