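import Mathlib

/-!
# Monomials of polynomials with approximately correct values at zero-one points
-/

set_option autoImplicit false

namespace Pool.Agent.Helper1x.EH

open Finset

/-- alternating sums over the sets between `T` and `S` -/
theorem alt_sum {F X : Type} [Field F] [DecidableEq X] {S T : Finset X} (hT : T ⊆ S) :
    ∑ Y ∈ S.powerset, (if T ⊆ Y then (-1 : F) ^ (S \ Y).card else 0) = if T = S then 1 else 0 := by
  have h := Finset.prod_add (fun _ : X => (1 : F)) (fun i => if i ∈ T then (0 : F) else -1) S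
  have h1 : ∀ Y ∈ S.powerset, (∏ i ∈ Y, (1 : F)) * ∏ i ∈ S \ Y, (if i ∈ T then (0 : F) else -1) =
      if T ⊆ Y then (-1 : F) ^ (S \ Y).card else 0 := by
    intro Y _
    rw [Finset.prod_const_one, one_mul]
    by_cases hY : T ⊆ Y
    · rw [if_pos hY, ← Finset.prod_const]
      refine Finset.prod_congr rfl fun i hi => if_neg fun hi' => ?_
      exact (mem_sdiff.1 hi).2 (hY hi')
    · rw [if_neg hY]
      obtain ⟨i, hi, hiY⟩ := Finset.not_subset.1 hY
      exact Finset.prod_eq_zero (mem_sdiff.2 ⟨hT hi, hiY⟩) (if_pos hi)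
  rw [Finset.sum_congr rfl h1] at h
  rw [← h]
  by_cases hTS : T = S
  · rw [if_pos hTS]
    refine Finset.prod_eq_one fun i hi => ?_
    rw [if_pos (hTS ▸ hi), add_zero]
  · rw [if_neg hTS]
    obtain ⟨i, hi, hiT⟩ : ∃ i ∈ S, i ∉ T := by
      by_contra hcon
      push Not at hcon
      exact hTS (Finset.Subset.antisymm hT hcon)
    refine Finset.prod_eq_zero hi ?_
    rw [if_neg hiT, add_neg_cancel]

/-- A polynomial whose value at the indicator of `S` is not zero and much larger than the values at the indicators of the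
proper subsets has a monomial with support `S`. -/
theorem mob_abs {F X : Type} [Field F] [DecidableEq X] (v : AbsoluteValue F ℝ) (f : MvPolynomial X F) (S : Finset X)
    (h0 : ∀ Y : Finset X, Y ⊂ S → 2 ^ S.card * v (MvPolynomial.eval (fun β => if β ∈ Y then (1 : F) else 0) f) ≤
      v (MvPolynomial.eval (fun β => if β ∈ S then (1 : F) else 0) f))
    (h1 : MvPolynomial.eval (fun β => if β ∈ S then (1 : F) else 0) f ≠ 0) : ∃ u ∈ f.support, u.support = S := by
  set g : Finset X → F := fun T => ∑ u ∈ f.support, if u.support = T then f.coeff u else 0 with hg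
  set E : Finset X → F := fun Y => MvPolynomial.eval (fun β => if β ∈ Y then (1 : F) else 0) f with hE
  have hev : ∀ Y : Finset X, E Y = ∑ T ∈ Y.powerset, g T := by
    intro Y
    rw [hE]
    simp only
    rw [MvPolynomial.eval_eq, hg, sum_comm]
    refine sum_congr rfl fun u _ => ?_
    rw [sum_ite_eq]
    by_cases h : u.support ⊆ Y
    · rw [if_pos (mem_powerset.2 h), prod_eq_one, mul_one]
      intro i hi
      rw [if_pos (h hi), one_pow]
    · rw [if_neg (fun h' => h (mem_powerset.1 h'))]
      obtain ⟨i, hi, hiY⟩ := not_subset.1 h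
      rw [prod_eq_zero hi, mul_zero]
      rw [if_neg hiY, zero_pow (Finsupp.mem_support_iff.1 hi)]
  have halt : ∑ Y ∈ S.powerset, (-1 : F) ^ (S \ Y).card * E Y = g S := by
    have h2 : ∀ Y ∈ S.powerset, (-1 : F) ^ (S \ Y).card * E Y =
        ∑ T ∈ S.powerset, (if T ⊆ Y then (-1 : F) ^ (S \ Y).card else 0) * g T := by
      intro Y hY
      rw [hev, Finset.mul_sum]
      have h3 : Y.powerset = S.powerset.filter fun T => T ⊆ Y := by
        ext T
        rw [mem_filter, mem_powerset, mem_powerset]
        exact ⟨fun h => ⟨h.trans (mem_powerset.1 hY), h⟩, fun h => h.2⟩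
      rw [h3, Finset.sum_filter]
      refine Finset.sum_congr rfl fun T _ => ?_
      split_ifs
      · rfl
      · rw [zero_mul]
    rw [Finset.sum_congr rfl h2, Finset.sum_comm]
    have h4 : ∀ T ∈ S.powerset, ∑ Y ∈ S.powerset, (if T ⊆ Y then (-1 : F) ^ (S \ Y).card else 0) * g T =
        if T = S then g T else 0 := by
      intro T hT
      rw [← Finset.sum_mul, alt_sum (mem_powerset.1 hT)]
      split_ifs
      · rw [one_mul]
      · rw [zero_mul]
    rw [Finset.sum_congr rfl h4, Finset.sum_ite_eq' S.powerset S g, if_pos (mem_powerset_self S)]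
  have hgS : g S ≠ 0 := by
    intro h2
    rw [h2, ← Finset.add_sum_erase _ _ (mem_powerset_self S), Finset.sdiff_self, Finset.card_empty, pow_zero,
      one_mul] at halt
    have h3 : v (E S) ≤ ∑ Y ∈ S.powerset.erase S, v (E Y) := by
      rw [eq_neg_of_add_eq_zero_left halt, v.map_neg]
      refine (v.sum_le _ _).trans (Finset.sum_le_sum fun Y _ => le_of_eq ?_)
      rw [v.map_mul, v.map_pow, v.map_neg, v.map_one, one_pow, one_mul]
    have h4 : 2 ^ S.card * v (E S) ≤ (2 ^ S.card - 1) * v (E S) := by
      calc 2 ^ S.card * v (E S) ≤ 2 ^ S.card * ∑ Y ∈ S.powerset.erase S, v (E Y) :=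
            mul_le_mul_of_nonneg_left h3 (by positivity)
        _ = ∑ Y ∈ S.powerset.erase S, 2 ^ S.card * v (E Y) := Finset.mul_sum _ _ _
        _ ≤ ∑ Y ∈ S.powerset.erase S, v (E S) := by
            refine Finset.sum_le_sum fun Y hY => h0 Y ?_
            obtain ⟨h5, h6⟩ := mem_erase.1 hY
            exact lt_of_le_of_ne (mem_powerset.1 h6) h5
        _ = (2 ^ S.card - 1) * v (E S) := by
            rw [Finset.sum_const, Finset.card_erase_of_mem (mem_powerset_self S), Finset.card_powerset, nsmul_eq_mul,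
              Nat.cast_sub Nat.one_le_two_pow, Nat.cast_pow, Nat.cast_ofNat, Nat.cast_one]
    have h5 : 0 < v (E S) := v.pos h1
    nlinarith
  obtain ⟨u, hu, hu'⟩ := exists_ne_zero_of_sum_ne_zero hgS
  refine ⟨u, hu, ?_⟩
  by_contra h
  exact hu' (if_neg h)

end Pool.Agent.Helper1x.EH
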