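import Pool.Agent.Helper1x.EH.Gates

/-!
# Circuits whose quadratic gates are sums of few eigenvectors
-/

set_option autoImplicit false

namespace Pool.Agent.Helper1x.EH

open Finset MvPolynomial
open Pool.Agent.Helper1x.EC (Earlier Quadratic DetGate MatrixFunctionGate scale)
open Pool.Agent.Helper1x.EP (mwt)
open Pool.Agent.Helper1x.EB (coeff_scale_c mwt_zero mwt_add)

section

variable {X K : Type*} [Field K] {c : X → Kˣ}

/-- all monomials of `p` have the weight `w` -/
def Hom (c : X → Kˣ) (w : Kˣ) (p : MvPolynomial X K) : Prop := ∀ u, coeff u p ≠ 0 → mwt c u = w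

open Classical in
/-- the part of weight `w` -/
noncomputable def cmp (c : X → Kˣ) (w : Kˣ) (p : MvPolynomial X K) : MvPolynomial X K :=
  ∑ u ∈ p.support.filter (fun u => mwt c u = w), monomial u (coeff u p)

open Classical in
/-- the weights of `p` -/
noncomputable def wts (c : X → Kˣ) (p : MvPolynomial X K) : Finset Kˣ := p.support.image (mwt c)

open Classical in
theorem coeff_cmp (w : Kˣ) (p : MvPolynomial X K) (u : X →₀ ℕ) :
    coeff u (cmp c w p) = if mwt c u = w then coeff u p else 0 := by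
  unfold cmp
  rw [coeff_sum]
  simp only [coeff_monomial]
  rw [Finset.sum_ite_eq']
  by_cases h1 : mwt c u = w
  · rw [if_pos h1]
    by_cases h2 : coeff u p = 0
    · rw [h2, ite_self]
    · exact if_pos (mem_filter.2 ⟨MvPolynomial.mem_support_iff.2 h2, h1⟩)
  · rw [if_neg h1]
    refine if_neg fun h => ?_
    exact h1 (mem_filter.1 h).2

theorem cmp_zero (w : Kˣ) : cmp c w (0 : MvPolynomial X K) = 0 := by
  classical
  ext u
  rw [coeff_cmp, coeff_zero, ite_self]

theorem cmp_add (w : Kˣ) (p q : MvPolynomial X K) : cmp c w (p + q) = cmp c w p + cmp c w q := by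
  classical
  ext u
  rw [coeff_add, coeff_cmp, coeff_cmp, coeff_cmp, coeff_add]
  split_ifs
  · rfl
  · rw [add_zero]

theorem cmp_smul (w : Kˣ) (a : K) (p : MvPolynomial X K) : cmp c w (a • p) = a • cmp c w p := by
  classical
  ext u
  rw [coeff_smul, coeff_cmp, coeff_cmp, coeff_smul]
  split_ifs
  · rfl
  · rw [smul_zero]

theorem cmp_sum {ι : Type*} (w : Kˣ) (s : Finset ι) (f : ι → MvPolynomial X K) :
    cmp c w (∑ i ∈ s, f i) = ∑ i ∈ s, cmp c w (f i) := by
  classical
  induction s using Finset.induction_on with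
  | empty => rw [Finset.sum_empty, Finset.sum_empty, cmp_zero]
  | insert i s hi ih => rw [Finset.sum_insert hi, Finset.sum_insert hi, cmp_add, ih]

theorem cmp_hom (w : Kˣ) (p : MvPolynomial X K) : Hom c w (cmp c w p) := by
  classical
  intro u hu
  by_contra h
  rw [coeff_cmp, if_neg h] at hu
  exact hu rfl

open Classical in
theorem cmp_of_hom {w w' : Kˣ} {p : MvPolynomial X K} (h : Hom c w' p) : cmp c w p = if w' = w then p else 0 := by
  ext u
  rw [coeff_cmp]
  by_cases h1 : w' = w
  · rw [if_pos h1]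
    by_cases h2 : coeff u p = 0
    · rw [h2, ite_self]
    · rw [if_pos ((h u h2).trans h1)]
  · rw [if_neg h1, coeff_zero]
    by_cases h2 : coeff u p = 0
    · rw [h2, ite_self]
    · rw [if_neg fun h3 => h1 ((h u h2).symm.trans h3)]

theorem cmp_notMem {w : Kˣ} {p : MvPolynomial X K} (h : w ∉ wts c p) : cmp c w p = 0 := by
  classical
  ext u
  rw [coeff_cmp, coeff_zero]
  by_cases h2 : coeff u p = 0
  · rw [h2, ite_self]
  · refine if_neg fun h3 => h ?_
    unfold wts
    exact mem_image.2 ⟨u, MvPolynomial.mem_support_iff.2 h2, h3⟩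

theorem sum_cmp (p : MvPolynomial X K) : ∑ w ∈ wts c p, cmp c w p = p := by
  classical
  ext u
  rw [coeff_sum]
  simp only [coeff_cmp]
  rw [Finset.sum_ite_eq]
  by_cases h2 : coeff u p = 0
  · rw [h2, ite_self]
  · refine if_pos ?_
    unfold wts
    exact mem_image_of_mem _ (MvPolynomial.mem_support_iff.2 h2)

theorem hom_mul {w w' : Kˣ} {p q : MvPolynomial X K} (hp : Hom c w p) (hq : Hom c w' q) :
    Hom c (w * w') (p * q) := by
  classical
  intro u hu
  rw [coeff_mul] at hu
  obtain ⟨x, hx, h⟩ := Finset.exists_ne_zero_of_sum_ne_zero hu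
  rw [← Finset.HasAntidiagonal.mem_antidiagonal.1 hx, mwt_add, hp _ (left_ne_zero_of_mul h), hq _ (right_ne_zero_of_mul h)]

theorem hom_scale {w : Kˣ} {p : MvPolynomial X K} (h : Hom c w p) :
    scale (fun x => (c x : K)) p = C (w : K) * p := by
  ext u
  rw [coeff_scale_c, coeff_C_mul]
  by_cases h2 : coeff u p = 0
  · rw [h2, mul_zero, mul_zero]
  · rw [h u h2]

theorem cmp_mul_mem {S T : Submodule K (MvPolynomial X K)} {p q : MvPolynomial X K} (hp : ∀ w, cmp c w p ∈ S)
    (hq : ∀ w, cmp c w q ∈ T) (w : Kˣ) : cmp c w (p * q) ∈ S * T := by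
  classical
  have h1 : p * q = ∑ w₁ ∈ wts c p, ∑ w₂ ∈ wts c q, cmp c w₁ p * cmp c w₂ q := by
    rw [← Finset.sum_mul_sum, sum_cmp, sum_cmp]
  rw [h1, cmp_sum]
  refine Submodule.sum_mem _ fun w₁ _ => ?_
  rw [cmp_sum]
  refine Submodule.sum_mem _ fun w₂ _ => ?_
  rw [cmp_of_hom (hom_mul (cmp_hom w₁ p) (cmp_hom w₂ q))]
  split_ifs
  · exact Submodule.mul_mem_mul (hp _) (hq _)
  · exact Submodule.zero_mem _

/-- sums of `r` eigenvectors -/
def IsSum (c : X → K) (r : ℕ) (p : MvPolynomial X K) : Prop :=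
  ∃ q : Fin r → MvPolynomial X K, (∀ i, ∃ a : K, scale c (q i) = C a * q i) ∧ p = ∑ i, q i

theorem card_wts {r : ℕ} {p : MvPolynomial X K} (h : IsSum (fun x => (c x : K)) r p) : (wts c p).card ≤ r := by
  classical
  obtain ⟨q, hq, hp⟩ := h
  choose a ha using hq
  have h1 : (wts c p).image (fun w : Kˣ => (w : K)) ⊆ univ.image a := by
    intro x hx
    obtain ⟨w, hw, rfl⟩ := mem_image.1 hx
    unfold wts at hw
    obtain ⟨u, hu, rfl⟩ := mem_image.1 hw
    have h2 := MvPolynomial.mem_support_iff.1 hu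
    rw [hp, coeff_sum] at h2
    obtain ⟨i, _, h3⟩ := Finset.exists_ne_zero_of_sum_ne_zero h2
    have h4 := congrArg (coeff u) (ha i)
    rw [coeff_scale_c, coeff_C_mul] at h4
    exact mem_image.2 ⟨i, mem_univ _, (mul_right_cancel₀ h3 h4).symm⟩
  have h2 := Finset.card_le_card h1
  rw [Finset.card_image_of_injective _ Units.val_injective] at h2
  exact h2.trans (Finset.card_image_le.trans (by rw [Finset.card_univ, Fintype.card_fin]))

open Classical in
/-- an enumeration of the parts -/
noncomputable def enum (c : X → Kˣ) (p : MvPolynomial X K) (i : ℕ) : MvPolynomial X K :=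
  if h : i < (wts c p).card then cmp c ((wts c p).equivFin.symm ⟨i, h⟩) p else 0

theorem enum_surj (p : MvPolynomial X K) (w : Kˣ) :
    cmp c w p = 0 ∨ ∃ i < (wts c p).card, enum c p i = cmp c w p := by
  classical
  by_cases hw : w ∈ wts c p
  · right
    refine ⟨(wts c p).equivFin ⟨w, hw⟩, Fin.is_lt _, ?_⟩
    unfold enum
    rw [dif_pos (Fin.is_lt _)]
    have h1 : (⟨((wts c p).equivFin ⟨w, hw⟩ : ℕ), Fin.is_lt _⟩ : Fin (wts c p).card) = (wts c p).equivFin ⟨w, hw⟩ :=
      rfl
    rw [h1, Equiv.symm_apply_apply]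
  · exact Or.inl (cmp_notMem hw)

theorem enum_cases (p : MvPolynomial X K) (i : ℕ) :
    (∃ w ∈ wts c p, enum c p i = cmp c w p) ∨ enum c p i = 0 := by
  classical
  unfold enum
  by_cases h : i < (wts c p).card
  · rw [dif_pos h]
    exact Or.inl ⟨_, ((wts c p).equivFin.symm ⟨i, h⟩).2, rfl⟩
  · rw [dif_neg h]
    exact Or.inr rfl

/-- circuits whose quadratic gates are sums of `r` eigenvectors -/
def CircuitR (c : X → K) (r G : ℕ) (p : ℕ → MvPolynomial X K) (m : ℕ → ℕ) : Prop :=
  ∀ k < G, (Quadratic p k ∧ IsSum c r (p k)) ∨ ((∃ a : K, scale c (p k) = C a * p k) ∧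
    (DetGate c p k (m k) ∨ MatrixFunctionGate c p k (m k) ∨ MatchingGate c p k (m k)))

/-- circuits whose gates are eigenvectors -/
theorem toR {c : X → K} {G : ℕ} {p : ℕ → MvPolynomial X K} {m : ℕ → ℕ} (hp : Circuit c G p m) :
    CircuitR c 1 G p m := by
  intro k hk
  obtain ⟨h1, h2⟩ := hp k hk
  rcases h2 with h2 | h2
  · exact Or.inl ⟨h2, fun _ => p k, fun _ => h1, by rw [Fin.sum_univ_one]⟩
  · exact Or.inr ⟨h1, h2⟩

theorem enum_eigen {p : MvPolynomial X K} (h : ∃ a : K, scale (fun x => (c x : K)) p = C a * p) :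
    (wts c p).card ≤ 1 ∧ enum c p 0 = p ∧ ∀ i, 1 ≤ i → enum c p i = 0 := by
  classical
  have h1 : (wts c p).card ≤ 1 := by
    refine card_wts (r := 1) ⟨fun _ => p, fun _ => h, ?_⟩
    rw [Fin.sum_univ_one]
  refine ⟨h1, ?_, fun i hi => ?_⟩
  · rcases Nat.eq_zero_or_pos (wts c p).card with h0 | h0
    · have h2 := sum_cmp (c := c) p
      rw [Finset.card_eq_zero.1 h0, Finset.sum_empty] at h2
      unfold enum
      rw [dif_neg (by omega)]
      exact h2
    · obtain ⟨w, hw⟩ := Finset.card_eq_one.1 (by omega : (wts c p).card = 1)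
      have h2 := sum_cmp (c := c) p
      rw [hw, Finset.sum_singleton] at h2
      rcases enum_surj (c := c) p w with h3 | ⟨i, hi, h3⟩
      · rcases enum_cases (c := c) p 0 with ⟨w', hw', h4⟩ | h4
        · rw [hw, Finset.mem_singleton] at hw'
          rw [h4, hw', h2]
        · rw [h4, ← h2, h3]
      · have h4 : i = 0 := by omega
        rw [h4] at h3
        rw [h3, h2]
  · unfold enum
    exact dif_neg (by omega)

/-- the gates of the split circuit -/
noncomputable def pS (c : X → Kˣ) (r : ℕ) (p : ℕ → MvPolynomial X K) (t : ℕ) : MvPolynomial X K :=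
  enum c (p (t / r)) (t % r)

/-- the matrix sizes of the split circuit -/
def mS (r : ℕ) (m : ℕ → ℕ) (t : ℕ) : ℕ := if t % r = 0 then m (t / r) else 0

theorem div_idx {r i i' : ℕ} (h : i' < r) : (i * r + i') / r = i := by
  rw [Nat.add_comm, Nat.add_mul_div_right _ _ (by omega), Nat.div_eq_of_lt h, Nat.zero_add]

theorem mod_idx {r i i' : ℕ} (h : i' < r) : (i * r + i') % r = i' := by
  rw [Nat.add_comm, Nat.add_mul_mod_self_right, Nat.mod_eq_of_lt h]

theorem cmp_earlier {r : ℕ} {p : ℕ → MvPolynomial X K} {j : ℕ}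
    (hj : ∀ i < j, (wts c (p i)).card ≤ r) {q : MvPolynomial X K} (hq : q ∈ Earlier p j) :
    ∀ w, cmp c w q ∈ Earlier (pS c r p) (j * r) := by
  classical
  rw [Earlier] at hq
  have hone : (1 : MvPolynomial X K) ∈ Earlier (pS c r p) (j * r) :=
    Submodule.subset_span (Or.inl (Or.inl rfl))
  induction hq using Submodule.span_induction with
  | mem x hx =>
    intro w
    rcases hx with (hx | ⟨y, rfl⟩) | ⟨i, hi, rfl⟩
    · rw [Set.mem_singleton_iff.1 hx]
      have h1 : Hom c 1 (1 : MvPolynomial X K) := by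
        intro u hu
        rw [coeff_one] at hu
        by_cases h : 0 = u
        · rw [← h, mwt_zero]
        · rw [if_neg h] at hu
          exact absurd rfl hu
      rw [cmp_of_hom h1]
      split_ifs
      · exact hone
      · exact Submodule.zero_mem _
    · have h1 : Hom c (c y) (MvPolynomial.X y : MvPolynomial X K) := by
        intro u hu
        rw [coeff_X] at hu
        by_cases h : Finsupp.single y 1 = u
        · rw [← h]
          unfold Pool.Agent.Helper1x.EP.mwt
          rw [Finsupp.prod_single_index (h := fun x k => c x ^ k) (pow_zero _), pow_one]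
        · rw [if_neg h] at hu
          exact absurd rfl hu
      rw [cmp_of_hom h1]
      split_ifs
      · exact Submodule.subset_span (Or.inl (Or.inr ⟨y, rfl⟩))
      · exact Submodule.zero_mem _
    · rcases enum_surj (c := c) (p i) w with h1 | ⟨i', hi', h1⟩
      · rw [h1]
        exact Submodule.zero_mem _
      · have h2 : i' < r := lt_of_lt_of_le hi' (hj i hi)
        refine Submodule.subset_span (Or.inr ⟨i * r + i', ?_, ?_⟩)
        · have h3 : (i + 1) * r ≤ j * r := Nat.mul_le_mul_right _ hi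
          rw [add_mul, one_mul] at h3
          exact Set.mem_Iio.2 (by omega)
        · show enum c (p ((i * r + i') / r)) ((i * r + i') % r) = _
          rw [div_idx h2, mod_idx h2, h1]
  | zero =>
    intro w
    rw [cmp_zero]
    exact Submodule.zero_mem _
  | add x y _ _ hx hy =>
    intro w
    rw [cmp_add]
    exact Submodule.add_mem _ (hx w) (hy w)
  | smul a x _ hx =>
    intro w
    rw [cmp_smul]
    exact Submodule.smul_mem _ _ (hx w)

theorem earlier_split {r : ℕ} {p : ℕ → MvPolynomial X K} {j : ℕ}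
    (hj : ∀ i < j, (wts c (p i)).card ≤ r) {q : MvPolynomial X K} (hq : q ∈ Earlier p j) :
    q ∈ Earlier (pS c r p) (j * r) := by
  rw [← sum_cmp (c := c) q]
  exact Submodule.sum_mem _ fun w _ => cmp_earlier hj hq w

theorem earlier_mono {p : ℕ → MvPolynomial X K} {i j : ℕ} (h : i ≤ j) : Earlier p i ≤ Earlier p j := by
  refine Submodule.span_mono (Set.union_subset_union_right _ (Set.image_mono fun x hx => ?_))
  exact lt_of_lt_of_le hx h

/-- the split circuit -/
theorem split_circuit {r G : ℕ} (hr : 1 ≤ r) {p : ℕ → MvPolynomial X K} {m : ℕ → ℕ}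
    (hp : CircuitR (fun x => (c x : K)) r G p m) :
    Circuit (fun x => (c x : K)) (G * r) (pS c r p) (mS r m) ∧
      ∀ f ∈ Earlier p G, f ∈ Earlier (pS c r p) (G * r) := by
  classical
  have hw : ∀ k < G, (wts c (p k)).card ≤ r := by
    intro k hk
    rcases hp k hk with h | h
    · exact card_wts h.2
    · exact (enum_eigen h.1).1.trans hr
  refine ⟨fun t ht => ?_, fun f hf => earlier_split hw hf⟩
  have hj : t / r < G := (Nat.div_lt_iff_lt_mul (by omega)).2 ht
  have hi : t % r < r := Nat.mod_lt _ (by omega)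
  have hle : t / r * r ≤ t := Nat.div_mul_le_self t r
  have hw' : ∀ i < t / r, (wts c (p i)).card ≤ r := fun i hi => hw i (hi.trans hj)
  have hzero : pS c r p t = 0 → Quadratic (pS c r p) t := by
    intro h
    unfold Quadratic
    rw [h]
    exact Submodule.zero_mem _
  refine ⟨?_, ?_⟩
  · rcases enum_cases (c := c) (p (t / r)) (t % r) with ⟨w, _, h⟩ | h
    · refine ⟨(w : K), ?_⟩
      show scale _ (enum c (p (t / r)) (t % r)) = _ * enum c (p (t / r)) (t % r)
      rw [h]
      exact hom_scale (cmp_hom w _)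
    · refine ⟨1, ?_⟩
      show scale _ (enum c (p (t / r)) (t % r)) = _ * enum c (p (t / r)) (t % r)
      rw [h, map_zero, mul_zero]
  · rcases hp _ hj with ⟨hq, _⟩ | ⟨he, hmat⟩
    · left
      rcases enum_cases (c := c) (p (t / r)) (t % r) with ⟨w, _, h⟩ | h
      · unfold Quadratic
        show enum c (p (t / r)) (t % r) ∈ _
        rw [h]
        have h1 : ∀ q ∈ Earlier p (t / r) * Earlier p (t / r), ∀ w, cmp c w q ∈
            Earlier (pS c r p) t * Earlier (pS c r p) t := by
          intro q hq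
          induction hq using Submodule.mul_induction_on' with
          | mem_mul_mem x hx y hy =>
            exact cmp_mul_mem (fun w => earlier_mono hle (cmp_earlier hw' hx w))
              fun w => earlier_mono hle (cmp_earlier hw' hy w)
          | add x _ y _ hx hy =>
            intro w
            rw [cmp_add]
            exact Submodule.add_mem _ (hx w) (hy w)
        exact h1 _ hq w
      · exact hzero h
    · obtain ⟨_, h0, h1⟩ := enum_eigen (c := c) he
      rcases Nat.eq_zero_or_pos (t % r) with h2 | h2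
      · right
        have hpt : pS c r p t = p (t / r) := by
          show enum c (p (t / r)) (t % r) = _
          rw [h2, h0]
        have hmt : mS r m t = m (t / r) := if_pos h2
        have hE : ∀ q ∈ Earlier p (t / r), q ∈ Earlier (pS c r p) t := fun q hq =>
          earlier_mono hle (earlier_split hw' hq)
        rw [hmt]
        rcases hmat with ⟨M, B, D, hM, hB, hD, hs, hd⟩ | ⟨M, b, μ, χ, hM, hs, hd⟩ | ⟨M, b, χ, hM, hs, hd⟩
        · exact Or.inl ⟨M, B, D, fun u v => hE _ (hM u v), hB, hD, hs, by rw [hpt, hd]⟩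
        · exact Or.inr (Or.inl ⟨M, b, μ, χ, fun u v => hE _ (hM u v), hs, by rw [hpt, hd]⟩)
        · exact Or.inr (Or.inr ⟨M, b, χ, fun u v => hE _ (hM u v), hs, by rw [hpt, hd]⟩)
      · exact Or.inl (hzero (h1 _ h2))

theorem sum_mul_range (r G : ℕ) (f : ℕ → ℕ) :
    ∑ t ∈ range (G * r), f t = ∑ j ∈ range G, ∑ i ∈ range r, f (j * r + i) := by
  induction G with
  | zero => rw [Nat.zero_mul, Finset.sum_range_zero, Finset.sum_range_zero]
  | succ G ih =>
    rw [Nat.add_mul, Nat.one_mul, Finset.sum_range_add, ih, Finset.sum_range_succ]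

/-- the size of the split circuit -/
theorem split_size {r : ℕ} (hr : 1 ≤ r) (G : ℕ) (m : ℕ → ℕ) :
    ∑ t ∈ range (G * r), (mS r m t + 1) ≤ r * ∑ j ∈ range G, (m j + 1) := by
  rw [sum_mul_range, Finset.mul_sum]
  refine Finset.sum_le_sum fun j _ => ?_
  rw [Finset.sum_add_distrib, Finset.sum_const, card_range, smul_eq_mul, mul_one]
  have h1 : ∑ i ∈ range r, mS r m (j * r + i) = m j := by
    rw [Finset.sum_eq_single_of_mem 0 (mem_range.2 (by omega))]
    · unfold mS
      rw [mod_idx (by omega), if_pos rfl, div_idx (by omega)]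
    · intro i hi hi0
      unfold mS
      rw [mod_idx (mem_range.1 hi), if_neg hi0]
  rw [h1]
  nlinarith

theorem mS_le {r : ℕ} {G : ℕ} {m : ℕ → ℕ} {N : ℕ} (hr : 1 ≤ r) (hm : ∀ j < G, m j ≤ N) : ∀ t < G * r, mS r m t ≤ N := by
  intro t ht
  unfold mS
  split_ifs
  · exact hm _ ((Nat.div_lt_iff_lt_mul (by omega)).2 ht)
  · exact Nat.zero_le _

end

end Pool.Agent.Helper1x.EH
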