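import Pool.Agent.Helper1x.EH.Gates

/-!
# Two monomials at a gate, both types of gates
-/

set_option autoImplicit false

namespace Pool.Agent.Helper1x.EH

open Finset Pool.Agent.Helper1x.EB

section

variable {X H : Type*} [CommGroup H]

open Classical in
/-- the possible factors at a gate -/
noncomputable def factors {ι : Type} [Fintype ι] (T : Bool) (b : ι → H) : Finset (H × H) :=
  insert (1, 1) ((univ : Finset (ι × ι)).image fun v => if T = true then (b v.1, b v.2) else (b v.1 * b v.2, 1))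

theorem card_factors {ι : Type} [Fintype ι] (T : Bool) (b : ι → H) :
    (factors T b).card ≤ Fintype.card ι * Fintype.card ι + 1 := by
  classical
  unfold factors
  refine (Finset.card_insert_le _ _).trans (Nat.add_le_add_right (Finset.card_image_le.trans ?_) _)
  rw [Finset.card_univ, Fintype.card_prod]

theorem traverse {ι : Type} [Fintype ι] {W : (X →₀ ℕ) → H} (hW : Mult W) {a : ℕ} {T : Bool} {b μ : ι → H}
    {d d' : ι → X →₀ ℕ} (hd : ∀ j, sz (d j) < a) (hx : Data W T b μ d) (hy : Data W T b μ d') {w0 : ℕ}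
    (hw0 : 0 < w0) (hw : w0 ≤ sz (∑ j, d j)) :
    ∃ h ∈ factors T b, ∃ S S' : Finset ι, w0 ≤ sz (∑ z ∈ S, d z) ∧ sz (∑ z ∈ S, d z) < w0 + a ∧
      h.1 * W (∑ z ∈ S', d' z) = h.2 * W (∑ z ∈ S, d z) := by
  classical
  rcases hx with ⟨hT, hx⟩ | ⟨hT, hx⟩
  · rcases hy with ⟨_, hy⟩ | ⟨hT', _⟩
    · obtain ⟨v, v', S, h1, h2, h3⟩ := traverse_perm hW hd hx hy hw0 hw
      refine ⟨(b v, b v'), ?_, S, S, h1, h2, h3⟩
      unfold factors
      exact mem_insert_of_mem (mem_image.2 ⟨(v, v'), mem_univ _, if_pos hT⟩)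
    · rw [hT] at hT'
      exact absurd hT' (by decide)
  · rcases hy with ⟨hT', _⟩ | ⟨_, hy⟩
    · rw [hT] at hT'
      exact absurd hT' (by decide)
    · obtain ⟨h, hh, S, S', h1, h2, h3⟩ := traverse_match hW hd hx hy hw0 hw
      refine ⟨(h, 1), ?_, S, S', h1, h2, ?_⟩
      · unfold factors
        rcases mem_insert.1 hh with rfl | hh
        · exact mem_insert_self _ _
        · obtain ⟨v, _, rfl⟩ := mem_image.1 hh
          exact mem_insert_of_mem (mem_image.2 ⟨v, mem_univ _, if_neg (by rw [hT]; decide)⟩)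
      · show h * _ = 1 * _
        rw [one_mul]
        exact h3

end

end Pool.Agent.Helper1x.EH
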